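import Mathlib

set_option autoImplicit false

open MeasureTheory Set
open scoped ENNReal

namespace Pool.Agent.Lib_helper33.RNP

/-- `μ` is non-atomic: every measurable set of positive measure contains a measurable subset of
strictly smaller positive measure. -/
def NonAtomic {Ω : Type*} [MeasurableSpace Ω] (μ : Measure Ω) : Prop :=
  ∀ A, MeasurableSet A → 0 < μ A → ∃ B ⊆ A, MeasurableSet B ∧ 0 < μ B ∧ μ B < μ A

universe u v

/-- The Radon-Nikodym property of a Banach space `Y`: for every finite measure space
`(Ω', Σ', ν)`, every countably additive `Y`-valued vector measure `F` on `Σ'` of bounded variation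
which vanishes on `ν`-null sets has a Bochner integrable density with respect to `ν`. -/
def HasRNP (Y : Type v) [NormedAddCommGroup Y] [NormedSpace ℝ Y] : Prop :=
  ∀ (Ω' : Type u) [MeasurableSpace Ω'] (ν : Measure Ω') [IsFiniteMeasure ν]
    (F : VectorMeasure Ω' Y), F.variation univ ≠ ∞ →
    (∀ A, MeasurableSet A → ν A = 0 → F A = 0) →
    ∃ g : Ω' → Y, Integrable g ν ∧ ∀ A, MeasurableSet A → F A = ∫ ω in A, g ω ∂ν

end Pool.Agent.Lib_helper33.RNP
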