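import Mathlib

set_option autoImplicit false

open Filter Topology Set

namespace Pool.Agent.Lib_helper33.RNP

/-- A consequence of Simons' inequality: if the functionals in `B` norm every vector of the
Banach space `E` exactly, then a bounded sequence which converges to zero on `B` has convex
combinations of arbitrarily small norm. -/
theorem simons {E : Type*} [NormedAddCommGroup E] [NormedSpace ℝ E] [CompleteSpace E]
    (x : ℕ → E) (δ : ℝ) (hδ : 0 < δ) (R : ℝ) (hR : ∀ n, ‖x n‖ ≤ R)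
    (hx : ∀ y ∈ convexHull ℝ (Set.range x), δ ≤ ‖y‖)
    (B : Set (E →L[ℝ] ℝ)) (hB1 : ∀ b ∈ B, ∀ y, b y ≤ ‖y‖) (hB : ∀ y : E, ∃ b ∈ B, b y = ‖y‖)
    (hlim : ∀ b ∈ B, Tendsto (fun n => b (x n)) atTop (𝓝 0)) : False := by
  set C : ℕ → Set E := fun n => closure (convexHull ℝ (x '' Set.Ici n)) with hC
  have hCconv : ∀ n, Convex ℝ (C n) := fun n => (convex_convexHull ℝ _).closure
  have hCclosed : ∀ n, IsClosed (C n) := fun n => isClosed_closure
  have hCanti : ∀ n, C (n + 1) ⊆ C n := fun n =>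
    closure_mono (convexHull_mono (image_mono (Set.Ici_subset_Ici.2 (Nat.le_succ n))))
  have hCR : ∀ n, ∀ y ∈ C n, ‖y‖ ≤ R := by
    intro n y hy
    have h1 : C n ⊆ Metric.closedBall (0 : E) R := by
      refine closure_minimal (convexHull_min ?_ (convex_closedBall _ _)) Metric.isClosed_closedBall
      rintro _ ⟨i, _, rfl⟩
      simpa using hR i
    simpa using h1 hy
  have hCδ : ∀ n, ∀ y ∈ C n, δ ≤ ‖y‖ := by
    intro n y hy
    have h1 : C n ⊆ {y | δ ≤ ‖y‖} := by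
      refine closure_minimal ?_ (isClosed_le continuous_const continuous_norm)
      intro y hy
      exact hx y (convexHull_mono (image_subset_range _ _) hy)
    exact h1 hy
  have hCx : ∀ n, x n ∈ C n := fun n =>
    subset_closure (subset_convexHull ℝ _ ⟨n, Set.mem_Ici.2 le_rfl, rfl⟩)
  set ε : ℕ → ℝ := fun n => δ / 4 * (1 / 4) ^ n with hε
  have hεpos : ∀ n, 0 < ε n := fun n => by positivity
  have hchoice : ∀ (n : ℕ) (z : E), ∃ Y ∈ C n, ∀ y ∈ C n,
      ‖z + ((1 : ℝ) / 2) ^ n • Y‖ ≤ ‖z + ((1 : ℝ) / 2) ^ n • y‖ + ε n := by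
    intro n z
    set S : Set ℝ := (fun y => ‖z + ((1 : ℝ) / 2) ^ n • y‖) '' C n with hS
    have hSne : S.Nonempty := ⟨_, x n, hCx n, rfl⟩
    have hSb : BddBelow S := ⟨0, by rintro _ ⟨y, _, rfl⟩; exact norm_nonneg _⟩
    obtain ⟨_, ⟨Y, hY, rfl⟩, hlt⟩ := exists_lt_of_csInf_lt hSne (lt_add_of_pos_right (sInf S) (hεpos n))
    refine ⟨Y, hY, fun y hy => ?_⟩
    have := csInf_le hSb ⟨y, hy, rfl⟩
    dsimp only at hlt this ⊢
    linarith
  choose Y hY1 hY2 using hchoice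
  let z : ℕ → E := fun n => Nat.rec 0 (fun n zn => zn + ((1 : ℝ) / 2) ^ (n + 1) • Y n zn) n
  have hz0 : z 0 = 0 := rfl
  have hzs : ∀ n, z (n + 1) = z n + ((1 : ℝ) / 2) ^ (n + 1) • Y n (z n) := fun n => rfl
  have hcau : CauchySeq z := by
    refine cauchySeq_of_le_geometric_two (C := R) (fun n => ?_)
    rw [dist_eq_norm, hzs]
    rw [show z n - (z n + ((1 : ℝ) / 2) ^ (n + 1) • Y n (z n)) =
      -(((1 : ℝ) / 2) ^ (n + 1) • Y n (z n)) by abel, norm_neg, norm_smul]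
    have h1 : ‖((1 : ℝ) / 2) ^ (n + 1)‖ = (1 / 2) ^ (n + 1) := by
      rw [Real.norm_of_nonneg (by positivity)]
    rw [h1]
    have h2 := hCR n _ (hY1 n (z n))
    have h3 : (0 : ℝ) ≤ (1 / 2) ^ (n + 1) := by positivity
    calc (1 / 2 : ℝ) ^ (n + 1) * ‖Y n (z n)‖ ≤ (1 / 2) ^ (n + 1) * R :=
          mul_le_mul_of_nonneg_left h2 h3
      _ = R / 2 / 2 ^ n := by
        rw [pow_succ, div_pow, one_pow]; ring
  obtain ⟨zl, hzl⟩ := cauchySeq_tendsto_of_complete hcau
  have claim1 : ∀ n m c, c ∈ C (n + m) →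
      (2 : ℝ) ^ n • (z (n + m) - z n) + ((1 : ℝ) / 2) ^ m • c ∈ C n := by
    intro n m
    induction m with
    | zero => intro c hc; simpa using hc
    | succ m ih =>
      intro c hc
      have h1 : ((1 : ℝ) / 2) • Y (n + m) (z (n + m)) + ((1 : ℝ) / 2) • c ∈ C (n + m) :=
        hCconv _ (hY1 _ _) (hCanti _ hc) (by norm_num) (by norm_num) (by norm_num)
      have h2 := ih _ h1
      have h3 : (2 : ℝ) ^ n • (z (n + (m + 1)) - z n) + ((1 : ℝ) / 2) ^ (m + 1) • c =
          (2 : ℝ) ^ n • (z (n + m) - z n) +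
          ((1 : ℝ) / 2) ^ m • (((1 : ℝ) / 2) • Y (n + m) (z (n + m)) + ((1 : ℝ) / 2) • c) := by
        rw [← add_assoc, hzs]
        have h4 : (2 : ℝ) ^ n * ((1 : ℝ) / 2) ^ (n + m + 1) = (1 / 2) ^ m * (1 / 2) := by
          rw [pow_succ, pow_add]
          have : (2 : ℝ) ^ n * (1 / 2) ^ n = 1 := by
            rw [← mul_pow]; norm_num
          calc (2 : ℝ) ^ n * ((1 / 2) ^ n * (1 / 2) ^ m * (1 / 2))
              = ((2 : ℝ) ^ n * (1 / 2) ^ n) * ((1 / 2) ^ m * (1 / 2)) := by ring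
            _ = (1 / 2) ^ m * (1 / 2) := by rw [this, one_mul]
        rw [show z (n + m) + ((1 : ℝ) / 2) ^ (n + m + 1) • Y (n + m) (z (n + m)) - z n =
          (z (n + m) - z n) + ((1 : ℝ) / 2) ^ (n + m + 1) • Y (n + m) (z (n + m)) by abel]
        rw [smul_add, smul_smul, h4, smul_add, smul_smul, smul_smul, pow_succ]
        abel
      rw [h3]; exact h2
  have claim2 : ∀ n, (2 : ℝ) ^ n • (zl - z n) ∈ C n := by
    intro n
    have h1 : Tendsto (fun m => (2 : ℝ) ^ n • (z (n + m) - z n) + ((1 : ℝ) / 2) ^ m • x (n + m))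
        atTop (𝓝 ((2 : ℝ) ^ n • (zl - z n) + 0)) := by
      refine Tendsto.add ?_ ?_
      · refine Tendsto.const_smul (Tendsto.sub_const ?_ _) _
        have := hzl.comp (tendsto_add_atTop_nat n)
        refine this.congr (fun m => ?_)
        simp [add_comm]
      · rw [tendsto_zero_iff_norm_tendsto_zero]
        have h2 : Tendsto (fun m : ℕ => ((1 : ℝ) / 2) ^ m * R) atTop (𝓝 (0 * R)) :=
          (tendsto_pow_atTop_nhds_zero_of_lt_one (by norm_num) (by norm_num)).mul_const _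
        rw [zero_mul] at h2
        refine squeeze_zero (fun _ => norm_nonneg _) (fun m => ?_) h2
        rw [norm_smul, Real.norm_of_nonneg (by positivity)]
        exact mul_le_mul_of_nonneg_left (hR _) (by positivity)
    rw [add_zero] at h1
    exact (hCclosed n).mem_of_tendsto h1 (Eventually.of_forall (fun m => claim1 n m _ (hCx _)))
  obtain ⟨b, hb, hbz⟩ := hB zl
  have claim3 : ∀ n, b ((2 : ℝ) ^ n • (zl - z n)) - 2 ^ n * ε n ≤
      b ((2 : ℝ) ^ (n + 1) • (zl - z (n + 1))) := by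
    intro n
    have h1 := hY2 n (z n) _ (claim2 n)
    have h2 : z n + ((1 : ℝ) / 2) ^ n • (2 : ℝ) ^ n • (zl - z n) = zl := by
      rw [smul_smul, ← mul_pow]; norm_num
    rw [h2, ← hbz] at h1
    have h3 := (hB1 b hb (z n + ((1 : ℝ) / 2) ^ n • Y n (z n))).trans h1
    have h4 : z n + ((1 : ℝ) / 2) ^ n • Y n (z n) = (2 : ℝ) • z (n + 1) - z n := by
      rw [hzs, smul_add, smul_smul, pow_succ, two_smul]
      rw [show (2 : ℝ) * ((1 / 2) ^ n * (1 / 2)) = (1 / 2) ^ n by ring]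
      abel
    rw [h4] at h3
    simp only [map_sub, map_smul, smul_eq_mul] at h3 ⊢
    have h5 : (0 : ℝ) < 2 ^ n := by positivity
    rw [pow_succ]
    nlinarith
  have claim4 : ∀ n, δ / 2 + δ / 2 * (1 / 2) ^ n ≤ b ((2 : ℝ) ^ n • (zl - z n)) := by
    intro n
    induction n with
    | zero =>
      have h1 := hCδ 0 _ (claim2 0)
      simp only [pow_zero, one_smul, hz0, sub_zero] at h1 ⊢
      rw [hbz]; linarith
    | succ n ih =>
      refine le_trans ?_ (claim3 n)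
      have h1 : (2 : ℝ) ^ n * ε n = δ / 4 * (1 / 2) ^ n := by
        simp only [hε]
        have : (2 : ℝ) ^ n * (1 / 4) ^ n = (1 / 2) ^ n := by
          rw [← mul_pow]; norm_num
        calc (2 : ℝ) ^ n * (δ / 4 * (1 / 4) ^ n) = δ / 4 * ((2 : ℝ) ^ n * (1 / 4) ^ n) := by ring
          _ = _ := by rw [this]
      rw [h1, pow_succ]
      linarith
  have h1 := (hlim b hb).eventually (gt_mem_nhds (show (0 : ℝ) < δ / 4 by linarith))
  obtain ⟨N, hN⟩ := eventually_atTop.1 h1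
  have h2 : ∀ y ∈ C N, b y ≤ δ / 4 := by
    intro y hy
    have h3 : C N ⊆ {y | b y ≤ δ / 4} := by
      refine closure_minimal (convexHull_min ?_ ?_) (isClosed_le b.continuous continuous_const)
      · rintro _ ⟨i, hi, rfl⟩
        exact (hN i hi).le
      · exact convex_halfSpace_le b.toLinearMap.isLinear _
    exact h3 hy
  have h3 := h2 _ (claim2 N)
  have h4 := claim4 N
  have h5 : 0 < δ / 2 * (1 / 2) ^ N := by positivity
  linarith

theorem convexHull_range_subset {E : Type*} [NormedAddCommGroup E] [NormedSpace ℝ E]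
    (x : ℕ → E) : convexHull ℝ (Set.range x) ⊆ ⋃ N : ℕ, convexHull ℝ (x '' Set.Iio N) := by
  refine convexHull_min ?_ ?_
  · rintro _ ⟨n, rfl⟩
    exact mem_iUnion.2 ⟨n + 1, subset_convexHull ℝ _ ⟨n, Set.mem_Iio.2 (Nat.lt_succ_self n), rfl⟩⟩
  · refine Directed.convex_iUnion ?_ (fun N => convex_convexHull ℝ _)
    refine Monotone.directed_le ?_
    intro a b hab
    exact convexHull_mono (image_mono (Set.Iio_subset_Iio hab))

theorem simons' {E : Type*} [NormedAddCommGroup E] [NormedSpace ℝ E] [CompleteSpace E]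
    (x : ℕ → E) (δ : ℝ) (hδ : 0 < δ) (R : ℝ) (hR : ∀ n, ‖x n‖ ≤ R)
    (hx : ∀ N : ℕ, ∀ y ∈ convexHull ℝ (x '' Set.Iio N), δ ≤ ‖y‖)
    (B : Set (E →L[ℝ] ℝ)) (hB1 : ∀ b ∈ B, ∀ y, b y ≤ ‖y‖) (hB : ∀ y : E, ∃ b ∈ B, b y = ‖y‖)
    (hlim : ∀ b ∈ B, Tendsto (fun n => b (x n)) atTop (𝓝 0)) : False := by
  refine simons x δ hδ R hR (fun y hy => ?_) B hB1 hB hlim
  obtain ⟨N, hN⟩ := mem_iUnion.1 (convexHull_range_subset x hy)
  exact hx N y hN

end Pool.Agent.Lib_helper33.RNP
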