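import Mathlib
import Pool.Agent.Lib_helper33.RNP.Defs

set_option autoImplicit false

open Filter Topology Set MeasureTheory
open scoped ENNReal unitInterval

namespace Pool.Agent.Lib_helper33.RNP

variable {Ω : Type*} [MeasurableSpace Ω] {μ : Measure Ω} [IsFiniteMeasure μ]

theorem NonAtomic.real (h : NonAtomic μ) {A : Set Ω} (hA : MeasurableSet A) (h0 : 0 < μ.real A) :
    ∃ B ⊆ A, MeasurableSet B ∧ 0 < μ.real B ∧ μ.real B < μ.real A := by
  have h1 : 0 < μ A := by
    rw [Measure.real, ENNReal.toReal_pos_iff] at h0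
    exact h0.1
  obtain ⟨B, hBA, hB, hB0, hB1⟩ := h A hA h1
  refine ⟨B, hBA, hB, ?_, ?_⟩
  · exact ENNReal.toReal_pos hB0.ne' (measure_ne_top _ _)
  · exact (ENNReal.toReal_lt_toReal (measure_ne_top _ _) (measure_ne_top _ _)).2 hB1

theorem NonAtomic.half (h : NonAtomic μ) {A : Set Ω} (hA : MeasurableSet A) (h0 : 0 < μ.real A) :
    ∃ B ⊆ A, MeasurableSet B ∧ 0 < μ.real B ∧ μ.real B ≤ μ.real A / 2 := by
  obtain ⟨B, hBA, hB, hB0, hB1⟩ := h.real hA h0
  rcases le_total (μ.real B) (μ.real A / 2) with h1 | h1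
  · exact ⟨B, hBA, hB, hB0, h1⟩
  · have h2 : μ.real (A \ B) = μ.real A - μ.real B := measureReal_diff hBA hB
    refine ⟨A \ B, diff_subset, hA.diff hB, ?_, ?_⟩
    · rw [h2]; linarith
    · rw [h2]; linarith

theorem NonAtomic.small (h : NonAtomic μ) {A : Set Ω} (hA : MeasurableSet A) (h0 : 0 < μ.real A)
    {ε : ℝ} (hε : 0 < ε) : ∃ B ⊆ A, MeasurableSet B ∧ 0 < μ.real B ∧ μ.real B ≤ ε := by
  have key : ∀ n : ℕ, ∃ B ⊆ A, MeasurableSet B ∧ 0 < μ.real B ∧ μ.real B ≤ μ.real A / 2 ^ n := by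
    intro n
    induction n with
    | zero => exact ⟨A, Subset.rfl, hA, h0, by simp⟩
    | succ n ih =>
      obtain ⟨B, hBA, hB, hB0, hB1⟩ := ih
      obtain ⟨C, hCB, hC, hC0, hC1⟩ := h.half hB hB0
      refine ⟨C, hCB.trans hBA, hC, hC0, hC1.trans ?_⟩
      rw [pow_succ, ← div_div]
      linarith
  obtain ⟨n, hn⟩ := exists_nat_gt (μ.real A / ε)
  obtain ⟨B, hBA, hB, hB0, hB1⟩ := key n
  refine ⟨B, hBA, hB, hB0, hB1.trans ?_⟩
  have h1 : (n : ℝ) ≤ 2 ^ n := by exact_mod_cast Nat.lt_two_pow_self.le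
  rw [div_le_iff₀ (by positivity)]
  rw [div_lt_iff₀ hε] at hn
  nlinarith

theorem NonAtomic.exists_eq (h : NonAtomic μ) {A : Set Ω} (hA : MeasurableSet A) {t : ℝ}
    (ht0 : 0 ≤ t) (ht : t ≤ μ.real A) : ∃ B ⊆ A, MeasurableSet B ∧ μ.real B = t := by
  -- greedy choice
  have choice : ∀ B : Set Ω, MeasurableSet B → μ.real B ≤ t →
      ∃ C ⊆ A \ B, MeasurableSet C ∧ μ.real B + μ.real C ≤ t ∧
        ∀ C' ⊆ A \ B, MeasurableSet C' → μ.real B + μ.real C' ≤ t → μ.real C' ≤ 2 * μ.real C := by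
    intro B hB hBt
    set S : Set ℝ := {r | ∃ C ⊆ A \ B, MeasurableSet C ∧ μ.real B + μ.real C ≤ t ∧ μ.real C = r}
    have hSb : BddAbove S := ⟨t, by
      rintro r ⟨C, _, _, h1, rfl⟩
      have : 0 ≤ μ.real B := measureReal_nonneg
      linarith⟩
    have h0S : (0 : ℝ) ∈ S := ⟨∅, empty_subset _, MeasurableSet.empty, by simpa using hBt, by simp⟩
    have hS0 : 0 ≤ sSup S := le_csSup hSb h0S
    rcases hS0.eq_or_lt with h1 | h1
    · refine ⟨∅, empty_subset _, MeasurableSet.empty, by simpa using hBt, ?_⟩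
      intro C' hC' hC'm hC't
      have := le_csSup hSb (show μ.real C' ∈ S from ⟨C', hC', hC'm, hC't, rfl⟩)
      rw [← h1] at this
      simpa using this
    · obtain ⟨r, ⟨C, hC, hCm, hCt, rfl⟩, hr⟩ :=
        exists_lt_of_lt_csSup ⟨0, h0S⟩ (half_lt_self h1)
      refine ⟨C, hC, hCm, hCt, ?_⟩
      intro C' hC' hC'm hC't
      have := le_csSup hSb (show μ.real C' ∈ S from ⟨C', hC', hC'm, hC't, rfl⟩)
      linarith
  choose! Cf hC1 hC2 hC3 hC4 using choice
  let Bs : ℕ → Set Ω := fun n => Nat.rec ∅ (fun _ B => B ∪ Cf B) n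
  have hBs0 : Bs 0 = ∅ := rfl
  have hBss : ∀ n, Bs (n + 1) = Bs n ∪ Cf (Bs n) := fun n => rfl
  have hBm : ∀ n, MeasurableSet (Bs n) ∧ μ.real (Bs n) ≤ t := by
    intro n
    induction n with
    | zero => rw [hBs0]; exact ⟨MeasurableSet.empty, by simpa using ht0⟩
    | succ n ih =>
      rw [hBss]
      refine ⟨ih.1.union (hC2 _ ih.1 ih.2), ?_⟩
      exact (measureReal_union_le _ _).trans (hC3 _ ih.1 ih.2)
  have hBA : ∀ n, Bs n ⊆ A := by
    intro n
    induction n with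
    | zero => rw [hBs0]; exact empty_subset _
    | succ n ih =>
      rw [hBss]
      exact union_subset ih ((hC1 _ (hBm n).1 (hBm n).2).trans diff_subset)
  have hBstep : ∀ n, μ.real (Bs (n + 1)) = μ.real (Bs n) + μ.real (Cf (Bs n)) := by
    intro n
    rw [hBss]
    refine measureReal_union ?_ (hC2 _ (hBm n).1 (hBm n).2)
    exact (disjoint_sdiff_self_right).mono_right (hC1 _ (hBm n).1 (hBm n).2)
  have hmono : Monotone Bs := monotone_nat_of_le_succ (fun n => by
    rw [hBss]; exact subset_union_left)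
  refine ⟨⋃ n, Bs n, iUnion_subset hBA, MeasurableSet.iUnion (fun n => (hBm n).1), ?_⟩
  have htend : Tendsto (fun n => μ.real (Bs n)) atTop (𝓝 (μ.real (⋃ n, Bs n))) := by
    have := tendsto_measure_iUnion_atTop (μ := μ) hmono
    exact (ENNReal.tendsto_toReal (measure_ne_top _ _)).comp this
  have hle : μ.real (⋃ n, Bs n) ≤ t := le_of_tendsto' htend (fun n => (hBm n).2)
  by_contra hne
  have hlt : μ.real (⋃ n, Bs n) < t := lt_of_le_of_ne hle hne
  have hUm : MeasurableSet (⋃ n, Bs n) := MeasurableSet.iUnion (fun n => (hBm n).1)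
  have hpos : 0 < μ.real (A \ ⋃ n, Bs n) := by
    rw [measureReal_diff (iUnion_subset hBA) hUm]
    linarith
  obtain ⟨C, hCA, hCm, hC0, hCt⟩ := h.small (hA.diff hUm) hpos (sub_pos.2 hlt)
  have hgrow : ∀ n, μ.real C ≤ 2 * μ.real (Cf (Bs n)) := by
    intro n
    refine hC4 _ (hBm n).1 (hBm n).2 C ?_ hCm ?_
    · exact hCA.trans (diff_subset_diff_right (subset_iUnion Bs n))
    · have : μ.real (Bs n) ≤ μ.real (⋃ n, Bs n) :=
        measureReal_mono (subset_iUnion Bs n)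
      linarith
  have hlin : ∀ n : ℕ, n * (μ.real C / 2) ≤ μ.real (Bs n) := by
    intro n
    induction n with
    | zero => simp
    | succ n ih =>
      rw [hBstep]
      have := hgrow n
      push_cast
      linarith
  obtain ⟨n, hn⟩ := exists_nat_gt (t / (μ.real C / 2))
  rw [div_lt_iff₀ (by positivity)] at hn
  have := hlin n
  have := (hBm n).2
  linarith

/-- a measurable set which halves all fibres of a measurable `ℕ`-valued function -/
theorem NonAtomic.halving (h : NonAtomic μ) (V : Ω → ℕ) (hV : Measurable V) :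
    ∃ H : Set Ω, MeasurableSet H ∧ ∀ k, μ.real (V ⁻¹' {k} ∩ H) = μ.real (V ⁻¹' {k}) / 2 := by
  have hm : ∀ k, MeasurableSet (V ⁻¹' {k}) := fun k => hV (measurableSet_singleton k)
  have h1 : ∀ k, ∃ B ⊆ V ⁻¹' {k}, MeasurableSet B ∧ μ.real B = μ.real (V ⁻¹' {k}) / 2 := by
    intro k
    have : 0 ≤ μ.real (V ⁻¹' {k}) := measureReal_nonneg
    exact h.exists_eq (hm k) (by linarith) (by linarith)
  choose B hB1 hB2 hB3 using h1
  refine ⟨⋃ k, B k, MeasurableSet.iUnion hB2, fun k => ?_⟩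
  rw [← hB3 k]
  congr 1
  ext ω
  simp only [mem_inter_iff, mem_preimage, mem_singleton_iff, mem_iUnion]
  constructor
  · rintro ⟨h2, j, hj⟩
    have := hB1 j hj
    simp only [mem_preimage, mem_singleton_iff] at this
    rw [← h2, this]; exact hj
  · intro h2
    exact ⟨hB1 k h2, k, h2⟩

end Pool.Agent.Lib_helper33.RNP
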