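import Mathlib
import Pool.Agent.Lib_helper33.RNP.NonAtomic

set_option autoImplicit false

open Filter Topology Set MeasureTheory
open scoped ENNReal unitInterval

namespace Pool.Agent.Lib_helper33.RNP

variable {Ω : Type*} [MeasurableSpace Ω] {μ : Measure Ω}

theorem NonAtomic.exists_dyadic [IsProbabilityMeasure μ] (h : NonAtomic μ) :
    ∃ V : ℕ → Ω → ℕ, (∀ n, Measurable (V n)) ∧ (∀ ω, V 0 ω = 0) ∧
      (∀ n ω, V (n + 1) ω = 2 * V n ω ∨ V (n + 1) ω = 2 * V n ω + 1) ∧
      (∀ n k, μ.real (V n ⁻¹' {k}) = if k < 2 ^ n then (1 / 2 : ℝ) ^ n else 0) := by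
  classical
  have hstep : ∀ W : {V : Ω → ℕ // Measurable V}, ∃ W' : {V : Ω → ℕ // Measurable V},
      (∀ ω, W'.1 ω = 2 * W.1 ω ∨ W'.1 ω = 2 * W.1 ω + 1) ∧
      (∀ k, μ.real (W'.1 ⁻¹' {2 * k}) = μ.real (W.1 ⁻¹' {k}) / 2) ∧
      (∀ k, μ.real (W'.1 ⁻¹' {2 * k + 1}) = μ.real (W.1 ⁻¹' {k}) / 2) := by
    rintro ⟨V, hV⟩
    obtain ⟨H, hH, hk⟩ := h.halving V hV
    have hm : ∀ k, MeasurableSet (V ⁻¹' {k}) := fun k => hV (measurableSet_singleton k)
    refine ⟨⟨fun ω => 2 * V ω + (if ω ∈ H then 1 else 0), ?_⟩, ?_, ?_, ?_⟩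
    · exact (hV.const_mul 2).add (Measurable.ite hH measurable_const measurable_const)
    · intro ω
      by_cases hω : ω ∈ H
      · right; simp [hω]
      · left; simp [hω]
    · intro k
      have : (fun ω => 2 * V ω + (if ω ∈ H then 1 else 0)) ⁻¹' {2 * k} = V ⁻¹' {k} \ H := by
        ext ω
        simp only [mem_preimage, mem_singleton_iff, mem_diff]
        by_cases hω : ω ∈ H
        · simp only [hω, if_true, not_true, and_false, iff_false]; omega
        · simp only [hω, if_false, not_false_iff, and_true]; omega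
      simp only [this]
      have h1 := measureReal_inter_add_diff (μ := μ) (s := V ⁻¹' {k}) hH
      rw [hk] at h1
      linarith
    · intro k
      have : (fun ω => 2 * V ω + (if ω ∈ H then 1 else 0)) ⁻¹' {2 * k + 1} = V ⁻¹' {k} ∩ H := by
        ext ω
        simp only [mem_preimage, mem_singleton_iff, mem_inter_iff]
        by_cases hω : ω ∈ H
        · simp only [hω, if_true, and_true]; omega
        · simp only [hω, if_false, and_false, iff_false]; omega
      simp only [this]
      exact hk k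
  choose next hn1 hn2 hn3 using hstep
  let W : ℕ → {V : Ω → ℕ // Measurable V} := fun n =>
    Nat.rec ⟨fun _ => 0, measurable_const⟩ (fun _ w => next w) n
  have hW0 : W 0 = ⟨fun _ => 0, measurable_const⟩ := rfl
  have hWs : ∀ n, W (n + 1) = next (W n) := fun n => rfl
  refine ⟨fun n => (W n).1, fun n => (W n).2, fun ω => rfl, fun n ω => ?_, fun n => ?_⟩
  · simp only [hWs]; exact hn1 _ ω
  · induction n with
    | zero =>
      intro k
      simp only [hW0]
      by_cases hk : k = 0
      · subst hk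
        have : (fun _ : Ω => 0) ⁻¹' ({0} : Set ℕ) = univ := by ext; simp
        rw [this]; simp
      · have : (fun _ : Ω => 0) ⁻¹' ({k} : Set ℕ) = ∅ := by
          ext; simp [Ne.symm hk]
        rw [this]
        simp [hk]
    | succ n ih =>
      intro k
      simp only [hWs]
      obtain ⟨j, rfl | rfl⟩ := Nat.even_or_odd' k
      · rw [hn2, ih]
        have : 2 * j < 2 ^ (n + 1) ↔ j < 2 ^ n := by rw [pow_succ]; omega
        simp only [this]
        split_ifs <;> ring
      · rw [hn3, ih]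
        have : 2 * j + 1 < 2 ^ (n + 1) ↔ j < 2 ^ n := by rw [pow_succ]; omega
        simp only [this]
        split_ifs <;> ring

theorem NonAtomic.exists_uniform [IsProbabilityMeasure μ] (h : NonAtomic μ) :
    ∃ U : Ω → I, Measurable U ∧ μ.map U = volume := by
  obtain ⟨V, hVm, hV0, hVs, hVk⟩ := h.exists_dyadic
  have hlt : ∀ n ω, V n ω + 1 ≤ 2 ^ n := by
    intro n ω
    induction n with
    | zero => rw [hV0]; simp
    | succ n ih =>
      rw [pow_succ]
      rcases hVs n ω with h1 | h1 <;> rw [h1] <;> omega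
  have hcnt : ∀ n j, μ.real (V n ⁻¹' (Iio j)) ≤ j / 2 ^ n := by
    intro n j
    induction j with
    | zero => simp
    | succ j ih =>
      have : V n ⁻¹' (Iio (j + 1)) = V n ⁻¹' (Iio j) ∪ V n ⁻¹' {j} := by
        ext ω; simp; omega
      rw [this]
      refine (measureReal_union_le _ _).trans ?_
      rw [hVk]
      have : (if j < 2 ^ n then (1 / 2 : ℝ) ^ n else 0) ≤ 1 / 2 ^ n := by
        split_ifs
        · rw [div_pow, one_pow]
        · positivity
      push_cast
      rw [add_div]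
      linarith
  have hcnt' : ∀ n j, j ≤ 2 ^ n → μ.real (V n ⁻¹' (Iio j)) = j / 2 ^ n := by
    intro n j hj
    induction j with
    | zero => simp
    | succ j ih =>
      have : V n ⁻¹' (Iio (j + 1)) = V n ⁻¹' (Iio j) ∪ V n ⁻¹' {j} := by
        ext ω; simp; omega
      rw [this, measureReal_union, ih (by omega), hVk, if_pos (by omega)]
      · push_cast
        rw [div_pow, one_pow, add_div]
      · rw [Set.disjoint_left]
        intro ω h1 h2
        simp at h1 h2
        omega
      · exact hVm n (measurableSet_singleton j)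
  have hmono : ∀ ω, Monotone (fun n => (V n ω : ℝ) / 2 ^ n) := by
    intro ω
    refine monotone_nat_of_le_succ (fun n => ?_)
    rw [div_le_div_iff₀ (by positivity) (by positivity), pow_succ]
    have : (2 * V n ω : ℝ) ≤ V (n + 1) ω := by
      rcases hVs n ω with h1 | h1 <;> rw [h1] <;> push_cast <;> linarith
    have h2 : (0 : ℝ) < 2 ^ n := by positivity
    nlinarith
  have hanti : ∀ ω, Antitone (fun n => ((V n ω : ℝ) + 1) / 2 ^ n) := by
    intro ω
    refine antitone_nat_of_succ_le (fun n => ?_)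
    rw [div_le_div_iff₀ (by positivity) (by positivity), pow_succ]
    have : (V (n + 1) ω : ℝ) ≤ 2 * V n ω + 1 := by
      rcases hVs n ω with h1 | h1 <;> rw [h1] <;> push_cast <;> linarith
    have h2 : (0 : ℝ) < 2 ^ n := by positivity
    nlinarith
  have hlow_up : ∀ ω n m, (V n ω : ℝ) / 2 ^ n ≤ ((V m ω : ℝ) + 1) / 2 ^ m := by
    intro ω n m
    calc (V n ω : ℝ) / 2 ^ n ≤ (V (max n m) ω : ℝ) / 2 ^ (max n m) := hmono ω (le_max_left _ _)
      _ ≤ ((V (max n m) ω : ℝ) + 1) / 2 ^ (max n m) := by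
        apply div_le_div_of_nonneg_right _ (by positivity); linarith
      _ ≤ _ := hanti ω (le_max_right _ _)
  have hbdd : ∀ ω, BddAbove (range (fun n => (V n ω : ℝ) / 2 ^ n)) := by
    intro ω
    refine ⟨((V 0 ω : ℝ) + 1) / 2 ^ 0, ?_⟩
    rintro _ ⟨n, rfl⟩
    exact hlow_up ω n 0
  set U : Ω → ℝ := fun ω => ⨆ n, (V n ω : ℝ) / 2 ^ n with hU
  have hUm : Measurable U := by
    refine Measurable.iSup (fun n => ?_)
    exact (measurable_from_nat.comp (hVm n) : Measurable (fun ω => ((V n ω : ℕ) : ℝ))).div_const _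
  have hU1 : ∀ n ω, (V n ω : ℝ) / 2 ^ n ≤ U ω := fun n ω => le_ciSup (hbdd ω) n
  have hU2 : ∀ n ω, U ω ≤ ((V n ω : ℝ) + 1) / 2 ^ n := fun n ω => ciSup_le (fun m => hlow_up ω m n)
  have hUI : ∀ ω, U ω ∈ I := by
    intro ω
    refine ⟨le_trans (by positivity) (hU1 0 ω), ?_⟩
    refine (hU2 0 ω).trans ?_
    rw [hV0]; simp
  refine ⟨fun ω => ⟨U ω, hUI ω⟩, hUm.subtype_mk, ?_⟩
  haveI : IsProbabilityMeasure (μ.map (fun ω => (⟨U ω, hUI ω⟩ : I))) :=
    Measure.isProbabilityMeasure_map (hUm.subtype_mk).aemeasurable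
  refine Measure.ext_of_Iic _ _ (fun x => ?_)
  rw [Measure.map_apply hUm.subtype_mk measurableSet_Iic]
  have hpre : (fun ω => (⟨U ω, hUI ω⟩ : I)) ⁻¹' (Iic x) = {ω | U ω ≤ x} := by
    ext ω
    simp only [mem_preimage, mem_Iic, mem_setOf_eq]
    rfl
  rw [hpre, unitInterval.volume_Iic]
  have key : μ.real {ω | U ω ≤ x} = x := by
    have hx0 : (0 : ℝ) ≤ x := x.2.1
    have hx1 : (x : ℝ) ≤ 1 := x.2.2
    have h1 : ∀ n : ℕ, |μ.real {ω | U ω ≤ x} - x| ≤ (1 / 2) ^ n := by
      intro n
      have h2n : (0 : ℝ) < 2 ^ n := by positivity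
      set k := ⌊2 ^ n * (x : ℝ)⌋₊ with hk
      have hk1 : (k : ℝ) ≤ 2 ^ n * x := Nat.floor_le (by positivity)
      have hk2 : 2 ^ n * (x : ℝ) < k + 1 := Nat.lt_floor_add_one _
      have hk3 : k ≤ 2 ^ n := by
        have : (k : ℝ) ≤ 2 ^ n := hk1.trans (by nlinarith)
        exact_mod_cast this
      have hlo : μ.real (V n ⁻¹' (Iio k)) ≤ μ.real {ω | U ω ≤ x} := by
        refine measureReal_mono ?_
        intro ω hω
        simp only [mem_preimage, mem_Iio, mem_setOf_eq] at hω ⊢
        refine (hU2 n ω).trans ?_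
        rw [div_le_iff₀ h2n]
        have : ((V n ω : ℝ) + 1) ≤ k := by exact_mod_cast hω
        linarith
      have hhi : μ.real {ω | U ω ≤ x} ≤ μ.real (V n ⁻¹' (Iio (k + 1))) := by
        refine measureReal_mono ?_
        intro ω hω
        simp only [mem_preimage, mem_Iio, mem_setOf_eq] at hω ⊢
        have := (hU1 n ω).trans hω
        rw [div_le_iff₀ h2n] at this
        have : (V n ω : ℝ) < k + 1 := by linarith
        exact_mod_cast this
      rw [hcnt' n k hk3] at hlo
      have hhi2 := hhi.trans (hcnt n (k + 1))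
      push_cast at hhi2
      rw [abs_le]
      rw [div_pow, one_pow]
      have e1 : (x : ℝ) - 1 / 2 ^ n ≤ k / 2 ^ n := by
        rw [le_div_iff₀ h2n, sub_mul, one_div, inv_mul_cancel₀ h2n.ne']
        linarith
      have e2 : ((k : ℝ) + 1) / 2 ^ n ≤ x + 1 / 2 ^ n := by
        rw [div_le_iff₀ h2n, add_mul, one_div, inv_mul_cancel₀ h2n.ne']
        linarith
      constructor <;> linarith
    have h2 : |μ.real {ω | U ω ≤ x} - x| ≤ 0 := by
      refine ge_of_tendsto' (tendsto_pow_atTop_nhds_zero_of_lt_one (r := (1 / 2 : ℝ))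
        (by norm_num) (by norm_num)) h1
    have h3 := abs_nonpos_iff.1 h2
    linarith
  have key2 := congrArg ENNReal.ofReal key
  rwa [Measure.real, ENNReal.ofReal_toReal (measure_ne_top _ _)] at key2

/-- Every probability measure on a standard Borel space is the law of a measurable map defined on
a given non-atomic probability space. -/
theorem NonAtomic.exists_map_eq [IsProbabilityMeasure μ] (h : NonAtomic μ)
    {S : Type*} [MeasurableSpace S] [StandardBorelSpace S] [Nonempty S]
    (Q : Measure S) [IsProbabilityMeasure Q] :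
    ∃ Ψ : Ω → S, Measurable Ψ ∧ μ.map Ψ = Q := by
  obtain ⟨U, hU, hUμ⟩ := h.exists_uniform
  obtain ⟨f, hf, hfQ⟩ := Measure.exists_measurable_map_eq Q
  refine ⟨f ∘ U, hf.comp hU, ?_⟩
  rw [← Measure.map_map hf hU, hUμ, hfQ]

end Pool.Agent.Lib_helper33.RNP
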