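import Mathlib
import Pool.Agent.Lib_helper33.RNP.Uniform

set_option autoImplicit false

open Filter Topology Set MeasureTheory
open scoped ENNReal

namespace Pool.Agent.Lib_helper33.RNP

section Fib

variable {Ω : Type*} [MeasurableSpace Ω] {ν : Measure Ω}
variable {Z : Type*} [NormedAddCommGroup Z] [NormedSpace ℝ Z] [CompleteSpace Z]

omit [CompleteSpace Z] in
theorem sm_comp {W : Type*} [TopologicalSpace W] (ψ : ℕ → W) {ℓ : Ω → ℕ} (hℓ : Measurable ℓ) :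
    StronglyMeasurable (fun ω => ψ (ℓ ω)) :=
  (StronglyMeasurable.of_discrete (f := ψ)).comp_measurable hℓ

omit [CompleteSpace Z] in
theorem integrable_of_bdd [IsFiniteMeasure ν] {f : Ω → Z} (hf : AEStronglyMeasurable f ν) (C : ℝ)
    (hC : ∀ ω, ‖f ω‖ ≤ C) : Integrable f ν :=
  Integrable.mono' (integrable_const C) hf (Eventually.of_forall hC)

omit [CompleteSpace Z] in
theorem aesm_apply {T : ℕ → (Z →L[ℝ] ℝ)} {ℓ : Ω → ℕ} (hℓ : Measurable ℓ) {G : Ω → Z}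
    (hG : AEStronglyMeasurable G ν) : AEStronglyMeasurable (fun ω => T (ℓ ω) (G ω)) ν := by
  have h1 : AEStronglyMeasurable (fun ω => (T (ℓ ω), G ω)) ν :=
    (sm_comp T hℓ).aestronglyMeasurable.prodMk hG
  have h2 : Continuous (fun p : (Z →L[ℝ] ℝ) × Z => p.1 p.2) := by fun_prop
  exact h2.comp_aestronglyMeasurable h1

theorem integrable_apply {T : ℕ → (Z →L[ℝ] ℝ)} {K : ℝ} (hT : ∀ a, ‖T a‖ ≤ K) {ℓ : Ω → ℕ}
    (hℓ : Measurable ℓ) {G : Ω → Z} (hG : Integrable G ν) :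
    Integrable (fun ω => T (ℓ ω) (G ω)) ν := by
  refine Integrable.mono' (hG.norm.const_mul K) (aesm_apply hℓ hG.aestronglyMeasurable) ?_
  refine Eventually.of_forall (fun ω => ?_)
  exact ((T (ℓ ω)).le_opNorm _).trans (mul_le_mul_of_nonneg_right (hT _) (norm_nonneg _))

/-- fibrewise vanishing integrals -/
theorem integral_fib_eq_zero {ℓ : Ω → ℕ} (hℓ : Measurable ℓ) {G : Ω → Z} (hG : Integrable G ν)
    (h0 : ∀ a, ∫ ω in ℓ ⁻¹' {a}, G ω ∂ν = 0) (T : ℕ → (Z →L[ℝ] ℝ)) (K : ℝ)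
    (hT : ∀ a, ‖T a‖ ≤ K) : ∫ ω, T (ℓ ω) (G ω) ∂ν = 0 := by
  have hint := integrable_apply hT hℓ hG
  have hU : (⋃ a, ℓ ⁻¹' {a}) = (univ : Set Ω) := by
    ext ω; simp
  have h1 : ∫ ω in ⋃ a, ℓ ⁻¹' {a}, T (ℓ ω) (G ω) ∂ν =
      ∑' a, ∫ ω in ℓ ⁻¹' {a}, T (ℓ ω) (G ω) ∂ν := by
    refine integral_iUnion (fun a => hℓ (measurableSet_singleton a)) ?_ hint.integrableOn
    intro a b hab
    refine Disjoint.preimage _ ?_
    simpa using hab
  rw [hU, Measure.restrict_univ] at h1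
  rw [h1]
  have h2 : ∀ a, ∫ ω in ℓ ⁻¹' {a}, T (ℓ ω) (G ω) ∂ν = 0 := by
    intro a
    have h3 : ∫ ω in ℓ ⁻¹' {a}, T (ℓ ω) (G ω) ∂ν = ∫ ω in ℓ ⁻¹' {a}, T a (G ω) ∂ν := by
      refine setIntegral_congr_fun (hℓ (measurableSet_singleton a)) ?_
      intro ω hω
      have : ℓ ω = a := hω
      simp only [this]
    rw [h3, ContinuousLinearMap.integral_comp_comm _ hG.integrableOn, h0, map_zero]
  simp [h2]

end Fib

section Avg

variable {Ω : Type*} [MeasurableSpace Ω]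
variable {Y : Type*} [NormedAddCommGroup Y] [NormedSpace ℝ Y]

/-- the average of the vector measure `F` with respect to its variation -/
noncomputable def avg (F : VectorMeasure Ω Y) (A : Set Ω) : Y := (F.variation.real A)⁻¹ • F A

variable (F : VectorMeasure Ω Y) [IsFiniteMeasure F.variation]

theorem norm_avg_le (A : Set Ω) : ‖avg F A‖ ≤ 1 := by
  unfold avg
  rw [norm_smul, norm_inv, Real.norm_of_nonneg measureReal_nonneg]
  have h1 : ‖F A‖ ≤ F.variation.real A := VectorMeasure.norm_measure_le_variation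
  rcases (measureReal_nonneg (μ := F.variation) (s := A)).eq_or_lt with h | h
  · rw [← h]; simp
  · rw [inv_mul_le_iff₀ h]; simpa using h1

theorem smul_avg (A : Set Ω) : F.variation.real A • avg F A = F A := by
  unfold avg
  have h1 : ‖F A‖ ≤ F.variation.real A := VectorMeasure.norm_measure_le_variation
  rcases (measureReal_nonneg (μ := F.variation) (s := A)).eq_or_lt with h | h
  · rw [← h] at h1 ⊢
    simp only [zero_smul]
    exact (norm_le_zero_iff.1 h1).symm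
  · rw [smul_smul, mul_inv_cancel₀ h.ne', one_smul]

/-- the martingale term associated with a countable measurable partition -/
noncomputable def Mt (ℓ : Ω → ℕ) (ω : Ω) : Y := avg F (ℓ ⁻¹' {ℓ ω})

theorem norm_Mt_le (ℓ : Ω → ℕ) (ω : Ω) : ‖Mt F ℓ ω‖ ≤ 1 := norm_avg_le F _

omit [IsFiniteMeasure F.variation] in
theorem sm_Mt {ℓ : Ω → ℕ} (hℓ : Measurable ℓ) : StronglyMeasurable (Mt F ℓ) :=
  sm_comp (fun a => avg F (ℓ ⁻¹' {a})) hℓ

theorem integrable_Mt {ℓ : Ω → ℕ} (hℓ : Measurable ℓ) : Integrable (Mt F ℓ) F.variation :=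
  integrable_of_bdd (sm_Mt F hℓ).aestronglyMeasurable 1 (norm_Mt_le F ℓ)

theorem setIntegral_Mt [CompleteSpace Y] {ℓ : Ω → ℕ} (hℓ : Measurable ℓ) (S : Set ℕ) :
    ∫ ω in ℓ ⁻¹' S, Mt F ℓ ω ∂F.variation = F (ℓ ⁻¹' S) := by
  have hm : ∀ a : ℕ, MeasurableSet (ℓ ⁻¹' ({a} ∩ S)) := fun a => hℓ (MeasurableSet.of_discrete)
  have hd : Pairwise (Function.onFun Disjoint (fun a : ℕ => ℓ ⁻¹' ({a} ∩ S))) := by
    intro a b hab
    refine Disjoint.preimage _ ?_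
    rw [Set.disjoint_left]
    rintro x ⟨hx, _⟩ ⟨hx', _⟩
    simp at hx hx'
    exact hab (hx.symm.trans hx')
  have hU : ℓ ⁻¹' S = ⋃ a : ℕ, ℓ ⁻¹' ({a} ∩ S) := by
    ext ω; simp
  rw [hU, integral_iUnion hm hd (integrable_Mt F hℓ).integrableOn,
    VectorMeasure.of_disjoint_iUnion hm hd]
  refine tsum_congr (fun a => ?_)
  by_cases ha : a ∈ S
  · have h1 : ({a} ∩ S : Set ℕ) = {a} := by
      ext x; simp only [mem_inter_iff, mem_singleton_iff]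
      exact ⟨fun h => h.1, fun h => ⟨h, h ▸ ha⟩⟩
    rw [h1]
    have h2 : ∫ ω in ℓ ⁻¹' {a}, Mt F ℓ ω ∂F.variation =
        ∫ ω in ℓ ⁻¹' {a}, avg F (ℓ ⁻¹' {a}) ∂F.variation := by
      refine setIntegral_congr_fun (hℓ (measurableSet_singleton a)) ?_
      intro ω hω
      have : ℓ ω = a := hω
      simp only [Mt, this]
    rw [h2, setIntegral_const, smul_avg]
  · have h1 : ({a} ∩ S : Set ℕ) = ∅ := by
      ext x; simp only [mem_inter_iff, mem_singleton_iff, mem_empty_iff_false, iff_false]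
      rintro ⟨h, h'⟩; exact ha (h ▸ h')
    rw [h1]; simp

theorem setIntegral_Mt_refine [CompleteSpace Y] {ℓ ℓ' : Ω → ℕ} (hℓ' : Measurable ℓ') (ρ : ℕ → ℕ)
    (hρ : ∀ ω, ℓ ω = ρ (ℓ' ω)) (a : ℕ) :
    ∫ ω in ℓ ⁻¹' {a}, Mt F ℓ' ω ∂F.variation = F (ℓ ⁻¹' {a}) := by
  have : ℓ ⁻¹' {a} = ℓ' ⁻¹' (ρ ⁻¹' {a}) := by
    ext ω; simp [hρ]
  rw [this, setIntegral_Mt F hℓ']

theorem tower [CompleteSpace Y] {ℓ ℓ' : Ω → ℕ} (hℓ : Measurable ℓ) (hℓ' : Measurable ℓ')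
    (ρ : ℕ → ℕ) (hρ : ∀ ω, ℓ ω = ρ (ℓ' ω)) (T : ℕ → (Y →L[ℝ] ℝ)) (K : ℝ) (hT : ∀ a, ‖T a‖ ≤ K) :
    ∫ ω, T (ℓ ω) (Mt F ℓ' ω - Mt F ℓ ω) ∂F.variation = 0 := by
  refine integral_fib_eq_zero hℓ ((integrable_Mt F hℓ').sub (integrable_Mt F hℓ)) ?_ T K hT
  intro a
  simp only [Pi.sub_apply]
  rw [integral_sub (integrable_Mt F hℓ').integrableOn (integrable_Mt F hℓ).integrableOn,
    setIntegral_Mt_refine F hℓ' ρ hρ, setIntegral_Mt F hℓ, sub_self]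

end Avg

section Section1

variable {Ω : Type*} [MeasurableSpace Ω]
variable {X Y : Type*} [NormedAddCommGroup X] [NormedSpace ℝ X] [CompleteSpace X]
  [NormedAddCommGroup Y] [NormedSpace ℝ Y] [CompleteSpace Y]

/-- a bounded `X`-valued martingale difference sequence, norming the increments of `Mt F (ℓ n)`. -/
theorem exists_h (B : X →L[ℝ] Y →L[ℝ] ℝ) (hB1 : ∀ x y, B x y ≤ ‖x‖ * ‖y‖)
    (hB2 : ∀ y, ∃ x, ‖x‖ ≤ 1 ∧ ‖y‖ / 2 ≤ B x y)
    (F : VectorMeasure Ω Y) [IsFiniteMeasure F.variation] (ℓ ℓ' : Ω → ℕ) (hℓ : Measurable ℓ)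
    (hℓ' : Measurable ℓ') (ρ : ℕ → ℕ) (hρ : ∀ ω, ℓ ω = ρ (ℓ' ω)) :
    ∃ h : ℕ → X, (∀ a, ‖h a‖ ≤ 2) ∧ (∀ a, ∫ ω in ℓ ⁻¹' {a}, h (ℓ' ω) ∂F.variation = 0) ∧
      (∫ ω, ‖Mt F ℓ' ω - Mt F ℓ ω‖ ∂F.variation) / 2 ≤
        ∫ ω, B (h (ℓ' ω)) (Mt F ℓ' ω) ∂F.variation := by
  set ν := F.variation with hν
  have hBn : ‖B‖ ≤ 1 := by
    refine ContinuousLinearMap.opNorm_le_bound _ zero_le_one (fun x => ?_)
    refine ContinuousLinearMap.opNorm_le_bound _ (by positivity) (fun y => ?_)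
    rw [Real.norm_eq_abs, abs_le, one_mul]
    constructor
    · have := hB1 (-x) y
      simp only [map_neg, norm_neg] at this
      change -(B x) y ≤ _ at this
      linarith
    · exact hB1 x y
  have hBx : ∀ x, ‖B x‖ ≤ ‖x‖ := fun x =>
    (B.le_opNorm x).trans (by simpa using mul_le_mul_of_nonneg_right hBn (norm_nonneg x))
  choose x hx1 hx2 using hB2
  -- the norming function
  set u : ℕ → X := fun a' => x (avg F (ℓ' ⁻¹' {a'}) - avg F (ℓ ⁻¹' {ρ a'})) with hu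
  have hu1 : ∀ a', ‖u a'‖ ≤ 1 := fun a' => hx1 _
  have huint : Integrable (fun ω => u (ℓ' ω)) ν :=
    integrable_of_bdd (sm_comp u hℓ').aestronglyMeasurable 1 (fun ω => hu1 _)
  set A : ℕ → X := fun a => (ν.real (ℓ ⁻¹' {a}))⁻¹ • ∫ ω in ℓ ⁻¹' {a}, u (ℓ' ω) ∂ν with hA
  have hA1 : ∀ a, ‖A a‖ ≤ 1 := by
    intro a
    simp only [hA]
    rw [norm_smul, norm_inv, Real.norm_of_nonneg measureReal_nonneg]
    have h1 : ‖∫ ω in ℓ ⁻¹' {a}, u (ℓ' ω) ∂ν‖ ≤ 1 * ν.real (ℓ ⁻¹' {a}) :=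
      norm_setIntegral_le_of_norm_le_const (measure_lt_top _ _) (fun ω _ => hu1 _)
    rcases (measureReal_nonneg (μ := ν) (s := ℓ ⁻¹' {a})).eq_or_lt with h | h
    · rw [← h]; simp
    · rw [inv_mul_le_iff₀ h]; linarith
  have hAint : Integrable (fun ω => A (ℓ ω)) ν :=
    integrable_of_bdd (sm_comp A hℓ).aestronglyMeasurable 1 (fun ω => hA1 _)
  refine ⟨fun a' => u a' - A (ρ a'), ?_, ?_, ?_⟩
  · intro a'
    refine (norm_sub_le _ _).trans ?_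
    linarith [hu1 a', hA1 (ρ a')]
  · intro a
    have h1 : ∫ ω in ℓ ⁻¹' {a}, (u (ℓ' ω) - A (ρ (ℓ' ω))) ∂ν =
        ∫ ω in ℓ ⁻¹' {a}, (u (ℓ' ω) - A (ℓ ω)) ∂ν := by
      simp only [hρ]
    rw [h1, integral_sub huint.integrableOn hAint.integrableOn]
    have h2 : ∫ ω in ℓ ⁻¹' {a}, A (ℓ ω) ∂ν = ∫ ω in ℓ ⁻¹' {a}, A a ∂ν := by
      refine setIntegral_congr_fun (hℓ (measurableSet_singleton a)) ?_
      intro ω hω
      have : ℓ ω = a := hω
      simp only [this]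
    rw [h2, setIntegral_const, hA]
    simp only
    rcases (measureReal_nonneg (μ := ν) (s := ℓ ⁻¹' {a})).eq_or_lt with h | h
    · have h3 : ν (ℓ ⁻¹' {a}) = 0 := by
        rw [Measure.real, eq_comm, ENNReal.toReal_eq_zero_iff] at h
        exact h.resolve_right (measure_ne_top _ _)
      rw [← h, zero_smul, sub_zero]
      exact setIntegral_measure_zero _ h3
    · rw [smul_smul, mul_inv_cancel₀ h.ne', one_smul, sub_self]
  · -- main inequality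
    have hM' := integrable_Mt F hℓ'
    have hM := integrable_Mt F hℓ
    have hub : ∀ a, ‖B (u a)‖ ≤ 1 := fun a => (hBx _).trans (hu1 a)
    have hAb : ∀ a, ‖B (A a)‖ ≤ 1 := fun a => (hBx _).trans (hA1 a)
    have hhb : ∀ a, ‖B (u a - A (ρ a))‖ ≤ 2 := fun a => by
      rw [map_sub]; refine (norm_sub_le _ _).trans ?_; linarith [hub a, hAb (ρ a)]
    -- `∫ B (h (ℓ')) (Mt ℓ) = 0`
    have e1 : ∫ ω, B (u (ℓ' ω) - A (ρ (ℓ' ω))) (Mt F ℓ ω) ∂ν = 0 := by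
      have hint : Integrable (fun ω => u (ℓ' ω) - A (ρ (ℓ' ω))) ν := by
        refine (huint.sub hAint).congr (Eventually.of_forall (fun ω => ?_))
        simp only [Pi.sub_apply, hρ]
      have h4 := integral_fib_eq_zero (ν := ν) hℓ hint ?_
        (fun a => B.flip (avg F (ℓ ⁻¹' {a}))) 1 (fun a => ?_)
      · exact h4
      · intro a
        have h1 : ∫ ω in ℓ ⁻¹' {a}, (u (ℓ' ω) - A (ρ (ℓ' ω))) ∂ν =
            ∫ ω in ℓ ⁻¹' {a}, (u (ℓ' ω) - A (ℓ ω)) ∂ν := by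
          simp only [hρ]
        rw [h1, integral_sub huint.integrableOn hAint.integrableOn]
        have h2 : ∫ ω in ℓ ⁻¹' {a}, A (ℓ ω) ∂ν = ∫ ω in ℓ ⁻¹' {a}, A a ∂ν := by
          refine setIntegral_congr_fun (hℓ (measurableSet_singleton a)) ?_
          intro ω hω
          have : ℓ ω = a := hω
          simp only [this]
        rw [h2, setIntegral_const, hA]
        simp only
        rcases (measureReal_nonneg (μ := ν) (s := ℓ ⁻¹' {a})).eq_or_lt with h | h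
        · have h3 : ν (ℓ ⁻¹' {a}) = 0 := by
            rw [Measure.real, eq_comm, ENNReal.toReal_eq_zero_iff] at h
            exact h.resolve_right (measure_ne_top _ _)
          rw [← h, zero_smul, sub_zero]
          exact setIntegral_measure_zero _ h3
        · rw [smul_smul, mul_inv_cancel₀ h.ne', one_smul, sub_self]
      · refine (B.flip.le_opNorm _).trans ?_
        rw [ContinuousLinearMap.opNorm_flip]
        have := norm_avg_le F (ℓ ⁻¹' {a})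
        nlinarith [norm_nonneg (avg F (ℓ ⁻¹' {a})), norm_nonneg B]
    -- tower
    have e2 : ∫ ω, B (A (ℓ ω)) (Mt F ℓ' ω - Mt F ℓ ω) ∂ν = 0 :=
      tower F hℓ hℓ' ρ hρ (fun a => B (A a)) 1 hAb
    have i1 : Integrable (fun ω => B (u (ℓ' ω) - A (ρ (ℓ' ω))) (Mt F ℓ' ω)) ν :=
      integrable_apply (T := fun a => B (u a - A (ρ a))) hhb hℓ' hM'
    have i2 : Integrable (fun ω => B (u (ℓ' ω) - A (ρ (ℓ' ω))) (Mt F ℓ ω)) ν :=
      integrable_apply (T := fun a => B (u a - A (ρ a))) hhb hℓ' hM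
    have i3 : Integrable (fun ω => B (u (ℓ' ω)) (Mt F ℓ' ω - Mt F ℓ ω)) ν :=
      integrable_apply (T := fun a => B (u a)) hub hℓ' (hM'.sub hM)
    have i4 : Integrable (fun ω => B (A (ℓ ω)) (Mt F ℓ' ω - Mt F ℓ ω)) ν :=
      integrable_apply (T := fun a => B (A a)) hAb hℓ (hM'.sub hM)
    have e3 : ∫ ω, B (u (ℓ' ω) - A (ρ (ℓ' ω))) (Mt F ℓ' ω) ∂ν =
        ∫ ω, B (u (ℓ' ω)) (Mt F ℓ' ω - Mt F ℓ ω) ∂ν := by
      calc ∫ ω, B (u (ℓ' ω) - A (ρ (ℓ' ω))) (Mt F ℓ' ω) ∂ν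
          = ∫ ω, B (u (ℓ' ω) - A (ρ (ℓ' ω))) (Mt F ℓ' ω) ∂ν -
            ∫ ω, B (u (ℓ' ω) - A (ρ (ℓ' ω))) (Mt F ℓ ω) ∂ν +
            ∫ ω, B (A (ℓ ω)) (Mt F ℓ' ω - Mt F ℓ ω) ∂ν := by rw [e1, e2]; ring
        _ = ∫ ω, B (u (ℓ' ω)) (Mt F ℓ' ω - Mt F ℓ ω) ∂ν := by
          have i12 : Integrable (fun ω => B (u (ℓ' ω) - A (ρ (ℓ' ω))) (Mt F ℓ' ω) -
            B (u (ℓ' ω) - A (ρ (ℓ' ω))) (Mt F ℓ ω)) ν := i1.sub i2
          rw [← integral_sub i1 i2, ← integral_add i12 i4]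
          refine integral_congr_ae (Eventually.of_forall (fun ω => ?_))
          simp only [hρ, map_sub]
          change (B (u (ℓ' ω))) (Mt F ℓ' ω) - (B (A (ρ (ℓ' ω)))) (Mt F ℓ' ω) -
            ((B (u (ℓ' ω))) (Mt F ℓ ω) - (B (A (ρ (ℓ' ω)))) (Mt F ℓ ω)) + _ = _
          ring
    rw [e3]
    have i5 : Integrable (fun ω => ‖Mt F ℓ' ω - Mt F ℓ ω‖ / 2) ν := (hM'.sub hM).norm.div_const 2
    have e4 : (∫ ω, ‖Mt F ℓ' ω - Mt F ℓ ω‖ ∂ν) / 2 = ∫ ω, ‖Mt F ℓ' ω - Mt F ℓ ω‖ / 2 ∂ν :=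
      (integral_div _ _).symm
    rw [e4]
    refine integral_mono i5 i3 (fun ω => ?_)
    simp only [hu]
    have h5 := hx2 (avg F (ℓ' ⁻¹' {ℓ' ω}) - avg F (ℓ ⁻¹' {ρ (ℓ' ω)}))
    have h6 : Mt F ℓ' ω - Mt F ℓ ω = avg F (ℓ' ⁻¹' {ℓ' ω}) - avg F (ℓ ⁻¹' {ρ (ℓ' ω)}) := by
      simp only [Mt, hρ]
    rw [h6]
    exact h5

end Section1

end Pool.Agent.Lib_helper33.RNP
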