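import Mathlib
import Pool.Agent.Lib_helper33.RNP.Mart

set_option autoImplicit false

open Filter Topology Set MeasureTheory
open scoped ENNReal

namespace Pool.Agent.Lib_helper33.RNP

section Ortho

variable {Ω : Type*} [MeasurableSpace Ω] {μ : Measure Ω} [IsProbabilityMeasure μ]

theorem ortho_tendsto (s : ℕ → Ω → ℝ) (hs : ∀ n, AEStronglyMeasurable (s n) μ) (C : ℝ)
    (hC0 : 0 < C) (hC : ∀ n ω, |s n ω| ≤ C)
    (horth : ∀ m n, m < n → ∫ ω, s m ω * s n ω ∂μ = 0) {D : Set Ω} (hD : MeasurableSet D) :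
    Tendsto (fun n => ∫ ω in D, s n ω ∂μ) atTop (𝓝 0) := by
  set a : ℕ → ℝ := fun n => ∫ ω in D, s n ω ∂μ with ha
  set t : ℕ → Ω → ℝ := fun N ω => ∑ n ∈ Finset.range N, a n * s n ω with ht
  have hsi : ∀ n, Integrable (s n) μ := fun n => integrable_of_bdd (hs n) C (hC n)
  have htm : ∀ N, AEStronglyMeasurable (t N) μ := by
    intro N
    have : Integrable (t N) μ := by
      simp only [ht]
      exact integrable_finset_sum _ (fun n _ => (hsi n).const_mul _)
    exact this.aestronglyMeasurable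
  have htb : ∀ N, ∃ K, ∀ ω, |t N ω| ≤ K := by
    intro N
    refine ⟨∑ n ∈ Finset.range N, |a n| * C, fun ω => ?_⟩
    simp only [ht]
    refine (Finset.abs_sum_le_sum_abs _ _).trans (Finset.sum_le_sum (fun n _ => ?_))
    rw [abs_mul]
    exact mul_le_mul_of_nonneg_left (hC n ω) (abs_nonneg _)
  have hti : ∀ N, Integrable (t N) μ := fun N => by
    obtain ⟨K, hK⟩ := htb N
    exact integrable_of_bdd (htm N) K hK
  have hprod : ∀ (u v : Ω → ℝ), AEStronglyMeasurable u μ → AEStronglyMeasurable v μ →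
      (∃ K, ∀ ω, |u ω| ≤ K) → (∃ K, ∀ ω, |v ω| ≤ K) → Integrable (fun ω => u ω * v ω) μ := by
    rintro u v hu hv ⟨K, hK⟩ ⟨K', hK'⟩
    refine integrable_of_bdd (hu.mul hv) (K * K') (fun ω => ?_)
    rw [Real.norm_eq_abs, abs_mul]
    exact mul_le_mul (hK ω) (hK' ω) (abs_nonneg _) ((abs_nonneg _).trans (hK ω))
  have hsb : ∀ n, ∃ K, ∀ ω, |s n ω| ≤ K := fun n => ⟨C, hC n⟩
  have hts : ∀ N m, N ≤ m → ∫ ω, t N ω * s m ω ∂μ = 0 := by
    intro N m hNm
    have : ∀ ω, t N ω * s m ω = ∑ n ∈ Finset.range N, a n * (s n ω * s m ω) := by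
      intro ω
      simp only [ht, Finset.sum_mul, mul_assoc]
    simp only [this]
    rw [integral_finset_sum _ (fun n _ => (hprod _ _ (hs n) (hs m) (hsb n) (hsb m)).const_mul _)]
    refine Finset.sum_eq_zero (fun n hn => ?_)
    rw [integral_const_mul, horth n m (lt_of_lt_of_le (Finset.mem_range.1 hn) hNm), mul_zero]
  have htt : ∀ N, ∫ ω, t N ω * t N ω ∂μ ≤ C ^ 2 * ∑ n ∈ Finset.range N, a n ^ 2 := by
    intro N
    induction N with
    | zero => simp [ht]
    | succ N ih =>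
      have h1 : ∀ ω, t (N + 1) ω * t (N + 1) ω =
          t N ω * t N ω + 2 * a N * (t N ω * s N ω) + a N ^ 2 * (s N ω * s N ω) := by
        intro ω
        have : t (N + 1) ω = t N ω + a N * s N ω := by simp only [ht, Finset.sum_range_succ]
        rw [this]; ring
      simp only [h1]
      have i1 := hprod _ _ (htm N) (htm N) (htb N) (htb N)
      have i2 := (hprod _ _ (htm N) (hs N) (htb N) (hsb N)).const_mul (2 * a N)
      have i3 := (hprod _ _ (hs N) (hs N) (hsb N) (hsb N)).const_mul (a N ^ 2)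
      have i12 : Integrable (fun ω => t N ω * t N ω + 2 * a N * (t N ω * s N ω)) μ := i1.add i2
      rw [integral_add i12 i3, integral_add i1 i2, integral_const_mul, integral_const_mul,
        hts N N le_rfl, mul_zero, add_zero, Finset.sum_range_succ, mul_add]
      have h2 : ∫ ω, s N ω * s N ω ∂μ ≤ C ^ 2 := by
        have : ∫ ω, s N ω * s N ω ∂μ ≤ ∫ _, C ^ 2 ∂μ := by
          refine integral_mono (hprod _ _ (hs N) (hs N) (hsb N) (hsb N)) (integrable_const _) ?_
          intro ω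
          have := hC N ω
          have h3 : s N ω * s N ω = |s N ω| ^ 2 := by rw [sq_abs]; ring
          simp only [h3]
          gcongr
        simpa using this
      have h4 : a N ^ 2 * ∫ ω, s N ω * s N ω ∂μ ≤ a N ^ 2 * C ^ 2 :=
        mul_le_mul_of_nonneg_left h2 (sq_nonneg _)
      linarith
  have htD : ∀ N, ∫ ω in D, t N ω ∂μ = ∑ n ∈ Finset.range N, a n ^ 2 := by
    intro N
    simp only [ht]
    rw [integral_finset_sum _ (fun n _ => ((hsi n).const_mul _).integrableOn)]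
    refine Finset.sum_congr rfl (fun n _ => ?_)
    rw [integral_const_mul]
    change a n * a n = a n ^ 2
    ring
  have hbound : ∀ N, ∑ n ∈ Finset.range N, a n ^ 2 ≤ C ^ 2 := by
    intro N
    set S := ∑ n ∈ Finset.range N, a n ^ 2 with hS
    have hDi : Integrable (D.indicator (fun _ => (1 : ℝ))) μ :=
      (integrable_const _).indicator hD
    have h0 : 0 ≤ ∫ ω, (D.indicator (fun _ => (1 : ℝ)) ω - (C ^ 2)⁻¹ * t N ω) ^ 2 ∂μ :=
      integral_nonneg (fun ω => sq_nonneg _)
    have h1 : ∀ ω, (D.indicator (fun _ => (1 : ℝ)) ω - (C ^ 2)⁻¹ * t N ω) ^ 2 =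
        D.indicator (fun _ => (1 : ℝ)) ω - 2 * (C ^ 2)⁻¹ * (D.indicator (t N) ω) +
          ((C ^ 2)⁻¹) ^ 2 * (t N ω * t N ω) := by
      intro ω
      by_cases hω : ω ∈ D
      · simp only [indicator_of_mem hω]; ring
      · simp only [indicator_of_notMem hω]; ring
    simp only [h1] at h0
    have i1 : Integrable (fun ω => 2 * (C ^ 2)⁻¹ * (D.indicator (t N) ω)) μ :=
      ((hti N).indicator hD).const_mul _
    have i2 := (hprod _ _ (htm N) (htm N) (htb N) (htb N)).const_mul (((C ^ 2)⁻¹) ^ 2)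
    have i01 : Integrable (fun ω => D.indicator (fun _ => (1 : ℝ)) ω -
      2 * (C ^ 2)⁻¹ * (D.indicator (t N) ω)) μ := hDi.sub i1
    rw [integral_add i01 i2, integral_sub hDi i1, integral_const_mul, integral_const_mul,
      integral_indicator hD, integral_indicator hD, htD] at h0
    have h2 : ∫ _ in D, (1 : ℝ) ∂μ ≤ 1 := by
      rw [setIntegral_const, smul_eq_mul, mul_one]
      exact measureReal_le_one
    have h3 := mul_le_mul_of_nonneg_left (htt N) (sq_nonneg ((C ^ 2)⁻¹))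
    have h4 : ((C ^ 2)⁻¹) ^ 2 * (C ^ 2 * S) = (C ^ 2)⁻¹ * S := by
      field_simp
    rw [h4] at h3
    have h5 : (C ^ 2)⁻¹ * S ≤ 1 := by linarith
    rwa [inv_mul_le_iff₀ (by positivity), mul_one] at h5
  have hsum : Summable (fun n => a n ^ 2) :=
    summable_of_sum_range_le (fun n => sq_nonneg _) hbound
  have h1 := hsum.tendsto_atTop_zero
  have h2 : Tendsto (fun n => Real.sqrt (a n ^ 2)) atTop (𝓝 (Real.sqrt 0)) :=
    (Real.continuous_sqrt.tendsto 0).comp h1
  simp only [Real.sqrt_sq_eq_abs, Real.sqrt_zero] at h2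
  exact (tendsto_zero_iff_abs_tendsto_zero a).2 h2

end Ortho

section WeakNull

variable {Ω : Type*} [MeasurableSpace Ω] {μ : Measure Ω} [IsProbabilityMeasure μ]
variable {X Y : Type*} [NormedAddCommGroup X] [NormedSpace ℝ X]
  [NormedAddCommGroup Y] [NormedSpace ℝ Y]

theorem weak_null (B : X →L[ℝ] Y →L[ℝ] ℝ) (hBn : ∀ x y, |B x y| ≤ ‖x‖ * ‖y‖)
    (f : ℕ → Ω → X) (hf : ∀ n, StronglyMeasurable (f n)) (hf2 : ∀ n ω, ‖f n ω‖ ≤ 2)
    (horth : ∀ (y : Y) (m n : ℕ), m < n → ∫ ω, B (f m ω) y * B (f n ω) y ∂μ = 0)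
    (g : Ω → Y) (hg : Integrable g μ) :
    Tendsto (fun n => ∫ ω, B (f n ω) (g ω) ∂μ) atTop (𝓝 0) := by
  have hint : ∀ n (g : Ω → Y), Integrable g μ → Integrable (fun ω => B (f n ω) (g ω)) μ :=
    fun n g hg => B.integrable_of_bilin_of_bdd_left 2 (hf n).aestronglyMeasurable
      (Eventually.of_forall (hf2 n)) hg
  refine Integrable.induction
    (fun g => Tendsto (fun n => ∫ ω, B (f n ω) (g ω) ∂μ) atTop (𝓝 0)) ?_ ?_ ?_ ?_ hg
  · intro y D hD _
    have h1 : ∀ n, ∫ ω, B (f n ω) (D.indicator (fun _ => y) ω) ∂μ = ∫ ω in D, B (f n ω) y ∂μ := by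
      intro n
      rw [← integral_indicator hD]
      refine integral_congr_ae (Eventually.of_forall (fun ω => ?_))
      by_cases hω : ω ∈ D
      · simp only [indicator_of_mem hω]
      · simp only [indicator_of_notMem hω, map_zero]
    simp only [h1]
    refine ortho_tendsto (fun n ω => B (f n ω) y) (fun n => ?_) (2 * ‖y‖ + 1)
      (by positivity) (fun n ω => ?_) (fun m n hmn => horth y m n hmn) hD
    · exact ((B.flip y).continuous.comp_stronglyMeasurable (hf n)).aestronglyMeasurable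
    · have := hBn (f n ω) y
      have h2 := mul_le_mul_of_nonneg_right (hf2 n ω) (norm_nonneg y)
      linarith
  · intro g1 g2 _ hg1 hg2 h1 h2
    have h3 : ∀ n, ∫ ω, B (f n ω) ((g1 + g2) ω) ∂μ =
        ∫ ω, B (f n ω) (g1 ω) ∂μ + ∫ ω, B (f n ω) (g2 ω) ∂μ := by
      intro n
      rw [← integral_add (hint n g1 hg1) (hint n g2 hg2)]
      simp only [Pi.add_apply, map_add]
    simp only [h3]
    simpa using h1.add h2
  · refine isClosed_of_closure_subset (fun g hg => ?_)
    rw [Metric.mem_closure_iff] at hg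
    simp only [mem_setOf_eq]
    rw [Metric.tendsto_atTop]
    intro ε hε
    obtain ⟨g', hg', hd⟩ := hg (ε / 4) (by positivity)
    simp only [mem_setOf_eq] at hg'
    rw [Metric.tendsto_atTop] at hg'
    obtain ⟨N, hN⟩ := hg' (ε / 2) (by positivity)
    refine ⟨N, fun n hn => ?_⟩
    have h1 := hN n hn
    rw [Real.dist_eq, sub_zero] at h1 ⊢
    have h2 : |∫ ω, B (f n ω) (g ω) ∂μ - ∫ ω, B (f n ω) (g' ω) ∂μ| ≤ 2 * (ε / 4) := by
      rw [← integral_sub (hint n g (L1.integrable_coeFn g)) (hint n g' (L1.integrable_coeFn g'))]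
      have h3 : ‖∫ ω, (B (f n ω) (g ω) - B (f n ω) (g' ω)) ∂μ‖ ≤
          ∫ ω, 2 * ‖g ω - g' ω‖ ∂μ := by
        refine norm_integral_le_of_norm_le ?_ (Eventually.of_forall (fun ω => ?_))
        · exact (((L1.integrable_coeFn g).sub (L1.integrable_coeFn g')).norm).const_mul 2
        · rw [← map_sub, Real.norm_eq_abs]
          exact (hBn _ _).trans (mul_le_mul_of_nonneg_right (hf2 n ω) (norm_nonneg _))
      rw [integral_const_mul] at h3
      have h4 : ∫ ω, ‖g ω - g' ω‖ ∂μ = dist g g' := by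
        rw [dist_eq_norm, L1.norm_eq_integral_norm]
        refine integral_congr_ae ?_
        filter_upwards [Lp.coeFn_sub g g'] with ω hω
        rw [hω]; rfl
      rw [h4] at h3
      rw [Real.norm_eq_abs] at h3
      refine h3.trans ?_
      linarith
    calc |∫ ω, B (f n ω) (g ω) ∂μ|
        = |(∫ ω, B (f n ω) (g ω) ∂μ - ∫ ω, B (f n ω) (g' ω) ∂μ) +
            ∫ ω, B (f n ω) (g' ω) ∂μ| := by ring_nf
      _ ≤ |∫ ω, B (f n ω) (g ω) ∂μ - ∫ ω, B (f n ω) (g' ω) ∂μ| +
            |∫ ω, B (f n ω) (g' ω) ∂μ| := abs_add_le _ _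
      _ < ε := by linarith
  · intro g1 g2 h12 _ h1
    refine h1.congr (fun n => ?_)
    refine integral_congr_ae ?_
    filter_upwards [h12] with ω hω
    rw [hω]

end WeakNull

end Pool.Agent.Lib_helper33.RNP
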