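import Mathlib
import Pool.Agent.Lib_helper33.RNP.WeakNull
import Pool.Agent.Lib_helper33.RNP.Simons

set_option autoImplicit false

open Filter Topology Set MeasureTheory
open scoped ENNReal

namespace Pool.Agent.Lib_helper33.RNP

variable {Ω Ω' : Type*} [MeasurableSpace Ω] [MeasurableSpace Ω']
  {μ : Measure Ω} [IsProbabilityMeasure μ]
variable {X Y : Type*} [NormedAddCommGroup X] [NormedSpace ℝ X] [CompleteSpace X]
  [NormedAddCommGroup Y] [NormedSpace ℝ Y] [CompleteSpace Y]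

theorem iter_eq {ℓ : ℕ → Ω' → ℕ} {ρ : ℕ → ℕ} (hρ : ∀ n ω, ℓ n ω = ρ (ℓ (n + 1) ω)) (m k : ℕ)
    (ω : Ω') : ℓ m ω = ρ^[k] (ℓ (m + k) ω) := by
  induction k with
  | zero => rfl
  | succ k ih => rw [ih, hρ, Function.iterate_succ_apply]; rfl

theorem lpPairing_le (B : X →L[ℝ] Y →L[ℝ] ℝ) (hB : ‖B‖ ≤ 1) (p q : ℝ≥0∞) [Fact (1 ≤ p)]
    [Fact (1 ≤ q)] [ENNReal.HolderConjugate p q] (f : Lp X p μ) (g : Lp Y q μ) :
    B.lpPairing μ p q f g ≤ ‖f‖ * ‖g‖ := by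
  rw [B.lpPairing_eq_integral]
  have h1 : ∫ ω, B (f ω) (g ω) ∂μ = ∫ ω, (B.holder 1 f g) ω ∂μ :=
    integral_congr_ae (B.coeFn_holder f g).symm
  rw [h1]
  have h2 : ‖∫ ω, (B.holder 1 f g) ω ∂μ‖ ≤ ‖B.holder 1 f g‖ := by
    rw [L1.norm_eq_integral_norm]
    exact norm_integral_le_integral_norm _
  have h3 := B.norm_holder_apply_apply_le (r := 1) f g
  have h4 : ‖B‖ * ‖f‖ * ‖g‖ ≤ ‖f‖ * ‖g‖ := by
    have : ‖B‖ * ‖f‖ ≤ ‖f‖ := by
      simpa using mul_le_mul_of_nonneg_right hB (norm_nonneg f)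
    exact mul_le_mul_of_nonneg_right this (norm_nonneg g)
  exact (le_abs_self _).trans (h2.trans (h3.trans h4))

theorem norm_toLp_le {Z : Type*} [NormedAddCommGroup Z] (r : ℝ≥0∞) {f : Ω → Z}
    (hf : MemLp f r μ) (C : ℝ) (hC0 : 0 ≤ C) (hC : ∀ ω, ‖f ω‖ ≤ C) : ‖hf.toLp f‖ ≤ C := by
  rw [Lp.norm_toLp]
  have h1 : eLpNorm f r μ ≤ μ univ ^ r.toReal⁻¹ * ENNReal.ofReal C :=
    eLpNorm_le_of_ae_bound (Eventually.of_forall hC)
  rw [measure_univ, ENNReal.one_rpow, one_mul] at h1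
  exact ENNReal.toReal_le_of_le_ofReal hC0 h1

theorem no_bad_seq (hμ : NonAtomic μ) (B : X →L[ℝ] Y →L[ℝ] ℝ) (hB1 : ∀ x y, B x y ≤ ‖x‖ * ‖y‖)
    (hB2 : ∀ y, ∃ x, ‖x‖ ≤ 1 ∧ ‖y‖ / 2 ≤ B x y)
    (p q : ℝ≥0∞) [Fact (1 ≤ p)] [Fact (1 ≤ q)] [ENNReal.HolderConjugate p q]
    (hNA : ∀ f : Lp X p μ, ∃ g : Lp Y q μ, ‖g‖ ≤ 1 ∧ ∫ ω, B (f ω) (g ω) ∂μ = ‖f‖)
    (F : VectorMeasure Ω' Y) [IsFiniteMeasure F.variation]
    (ℓ : ℕ → Ω' → ℕ) (hℓ : ∀ n, Measurable (ℓ n)) (ρ : ℕ → ℕ)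
    (hρ : ∀ n ω, ℓ n ω = ρ (ℓ (n + 1) ω)) (ε : ℝ) (hε : 0 < ε)
    (hbad : ∀ n, ε ≤ ∫ ω, ‖Mt F (ℓ (n + 1)) ω - Mt F (ℓ n) ω‖ ∂F.variation) : False := by
  set ν := F.variation with hν
  have hBabs : ∀ x y, |B x y| ≤ ‖x‖ * ‖y‖ := by
    intro x y
    rw [abs_le]
    refine ⟨?_, hB1 x y⟩
    have := hB1 (-x) y
    simp only [map_neg, norm_neg] at this
    change -(B x) y ≤ _ at this
    linarith
  have hBn : ‖B‖ ≤ 1 := by
    refine ContinuousLinearMap.opNorm_le_bound _ zero_le_one (fun x => ?_)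
    refine ContinuousLinearMap.opNorm_le_bound _ (by positivity) (fun y => ?_)
    rw [Real.norm_eq_abs, one_mul]
    exact hBabs x y
  have hBx : ∀ x, ‖B x‖ ≤ ‖x‖ := fun x =>
    (B.le_opNorm x).trans (by simpa using mul_le_mul_of_nonneg_right hBn (norm_nonneg x))
  have hν0 : ν ≠ 0 := by
    intro h0
    have := hbad 0
    rw [h0] at this
    simp at this
    linarith
  haveI : NeZero ν := ⟨hν0⟩
  set c : ℝ := ν.real univ with hc
  have hcpos : 0 < c := by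
    rw [hc, Measure.real]
    exact ENNReal.toReal_pos (NeZero.ne (ν univ)) (measure_ne_top _ _)
  set P : Measure Ω' := (ν univ)⁻¹ • ν with hP
  have hℓm : Measurable (fun ω (n : ℕ) => ℓ n ω) := measurable_pi_lambda _ hℓ
  haveI : IsProbabilityMeasure (P.map (fun ω (n : ℕ) => ℓ n ω)) :=
    Measure.isProbabilityMeasure_map hℓm.aemeasurable
  obtain ⟨Ψ, hΨ, hΨμ⟩ := hμ.exists_map_eq (P.map (fun ω (n : ℕ) => ℓ n ω))
  have transfer : ∀ G : (ℕ → ℕ) → ℝ, StronglyMeasurable G →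
      ∫ ω, G (Ψ ω) ∂μ = c⁻¹ * ∫ ω, G (fun n => ℓ n ω) ∂ν := by
    intro G hG
    rw [← integral_map hΨ.aemeasurable hG.aestronglyMeasurable, hΨμ,
      integral_map hℓm.aemeasurable hG.aestronglyMeasurable, hP, integral_smul_measure]
    rw [smul_eq_mul, ENNReal.toReal_inv]
    rfl
  choose h hh1 hh2 hh3 using fun n => exists_h B hB1 hB2 F (ℓ n) (ℓ (n + 1)) (hℓ n) (hℓ (n + 1)) ρ
    (hρ n)
  have hm : ∀ n, Measurable (fun ω => Ψ ω n) := fun n => (measurable_pi_apply n).comp hΨ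
  set f : ℕ → Ω → X := fun n ω => h n (Ψ ω (n + 1)) with hf
  have hfm : ∀ n, StronglyMeasurable (f n) := fun n => sm_comp (h n) (hm (n + 1))
  have hf2 : ∀ n ω, ‖f n ω‖ ≤ 2 := fun n ω => hh1 n _
  have hfL : ∀ n, MemLp (f n) p μ := fun n =>
    MemLp.of_bound (hfm n).aestronglyMeasurable 2 (Eventually.of_forall (hf2 n))
  -- orthogonality
  have horth : ∀ (y : Y) (m n : ℕ), m < n → ∫ ω, B (f m ω) y * B (f n ω) y ∂μ = 0 := by
    intro y m n hmn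
    have hG : StronglyMeasurable (fun s : ℕ → ℕ => B (h m (s (m + 1))) y * B (h n (s (n + 1))) y) :=
      (sm_comp (fun a => B (h m a) y) (measurable_pi_apply (m + 1))).mul
        (sm_comp (fun a => B (h n a) y) (measurable_pi_apply (n + 1)))
    have h1 := transfer _ hG
    simp only [hf]
    rw [h1]
    have hidx : (m + 1) + (n - (m + 1)) = n := by omega
    have h2 : ∀ ω, ℓ (m + 1) ω = ρ^[n - (m + 1)] (ℓ n ω) := by
      intro ω
      have := iter_eq hρ (m + 1) (n - (m + 1)) ω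
      rwa [hidx] at this
    have hGi : Integrable (fun ω => h n (ℓ (n + 1) ω)) ν :=
      integrable_of_bdd (sm_comp (h n) (hℓ (n + 1))).aestronglyMeasurable 2 (fun ω => hh1 n _)
    have h3 := integral_fib_eq_zero (ν := ν) (hℓ n) hGi (hh2 n)
      (fun a => (B (h m (ρ^[n - (m + 1)] a)) y) • B.flip y) (2 * ‖y‖ * ‖y‖) (fun a => by
        rw [norm_smul, Real.norm_eq_abs]
        refine mul_le_mul ?_ ?_ (norm_nonneg _) (by positivity)
        · refine (hBabs _ _).trans ?_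
          exact mul_le_mul_of_nonneg_right (hh1 m _) (norm_nonneg y)
        · refine (B.flip.le_opNorm y).trans ?_
          rw [ContinuousLinearMap.opNorm_flip]
          simpa using mul_le_mul_of_nonneg_right hBn (norm_nonneg y))
    have h4 : ∫ ω, B (h m (ℓ (m + 1) ω)) y * B (h n (ℓ (n + 1) ω)) y ∂ν = 0 := by
      rw [← h3]
      refine integral_congr_ae (Eventually.of_forall (fun ω => ?_))
      simp only [h2 ω]
      rfl
    rw [h4, mul_zero]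
  set x : ℕ → Lp X p μ := fun n => (hfL n).toLp (f n) with hx
  have hxR : ∀ n, ‖x n‖ ≤ 2 := fun n => norm_toLp_le p (hfL n) 2 (by norm_num) (hf2 n)
  set 𝓑 : Set (Lp X p μ →L[ℝ] ℝ) :=
    {b | ∃ g : Lp Y q μ, ‖g‖ ≤ 1 ∧ b = (B.lpPairing μ p q).flip g} with h𝓑
  have hb1 : ∀ b ∈ 𝓑, ∀ y, b y ≤ ‖y‖ := by
    rintro b ⟨g, hg, rfl⟩ y
    rw [ContinuousLinearMap.flip_apply]
    refine (lpPairing_le B hBn p q y g).trans ?_
    simpa using mul_le_mul_of_nonneg_left hg (norm_nonneg y)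
  set δ : ℝ := c⁻¹ * (ε / 2) with hδ
  have hδpos : 0 < δ := by positivity
  -- lower bound
  have hlow : ∀ N : ℕ, ∃ b ∈ 𝓑, ∀ n < N, δ ≤ b (x n) := by
    intro N
    have hMm : StronglyMeasurable (fun ω => avg F (ℓ N ⁻¹' {Ψ ω N})) :=
      sm_comp (fun a => avg F (ℓ N ⁻¹' {a})) (hm N)
    have hM1 : ∀ ω, ‖avg F (ℓ N ⁻¹' {Ψ ω N})‖ ≤ 1 := fun ω => norm_avg_le F _
    have hML : MemLp (fun ω => avg F (ℓ N ⁻¹' {Ψ ω N})) q μ :=
      MemLp.of_bound hMm.aestronglyMeasurable 1 (Eventually.of_forall hM1)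
    refine ⟨(B.lpPairing μ p q).flip (hML.toLp _), ⟨hML.toLp _,
      norm_toLp_le q hML 1 zero_le_one hM1, rfl⟩, ?_⟩
    intro n hn
    rw [ContinuousLinearMap.flip_apply, B.lpPairing_eq_integral]
    have h1 : ∫ ω, B ((x n : Lp X p μ) ω) ((hML.toLp _ : Lp Y q μ) ω) ∂μ =
        ∫ ω, B (h n (Ψ ω (n + 1))) (avg F (ℓ N ⁻¹' {Ψ ω N})) ∂μ := by
      refine integral_congr_ae ?_
      filter_upwards [(hfL n).coeFn_toLp, hML.coeFn_toLp] with ω h2 h3
      rw [hx]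
      simp only
      rw [h2, h3]
    rw [h1]
    have hG : StronglyMeasurable (fun s : ℕ → ℕ =>
        B (h n (s (n + 1))) (avg F (ℓ N ⁻¹' {s N}))) := by
      have h5 : StronglyMeasurable (fun s : ℕ → ℕ => (h n (s (n + 1)), avg F (ℓ N ⁻¹' {s N}))) :=
        (sm_comp (h n) (measurable_pi_apply (n + 1))).prodMk
          (sm_comp (fun a => avg F (ℓ N ⁻¹' {a})) (measurable_pi_apply N))
      have h6 : Continuous (fun p : X × Y => B p.1 p.2) := by fun_prop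
      exact h6.comp_stronglyMeasurable h5
    rw [transfer _ hG, hδ]
    refine mul_le_mul_of_nonneg_left ?_ (by positivity)
    -- tower
    have hidx : (n + 1) + (N - (n + 1)) = N := by omega
    have h2 : ∀ ω, ℓ (n + 1) ω = ρ^[N - (n + 1)] (ℓ N ω) := by
      intro ω
      have := iter_eq hρ (n + 1) (N - (n + 1)) ω
      rwa [hidx] at this
    have hTb : ∀ a, ‖B (h n a)‖ ≤ 2 := fun a => (hBx _).trans (hh1 n a)
    have h3 := tower F (hℓ (n + 1)) (hℓ N) (ρ^[N - (n + 1)]) h2 (fun a => B (h n a)) 2 hTb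
    have i1 : Integrable (fun ω => B (h n (ℓ (n + 1) ω)) (Mt F (ℓ N) ω)) ν :=
      integrable_apply (T := fun a => B (h n a)) hTb (hℓ (n + 1)) (integrable_Mt F (hℓ N))
    have i2 : Integrable (fun ω => B (h n (ℓ (n + 1) ω)) (Mt F (ℓ (n + 1)) ω)) ν :=
      integrable_apply (T := fun a => B (h n a)) hTb (hℓ (n + 1)) (integrable_Mt F (hℓ (n + 1)))
    have h4 : ∫ ω, B (h n (ℓ (n + 1) ω)) (Mt F (ℓ N) ω) ∂ν =
        ∫ ω, B (h n (ℓ (n + 1) ω)) (Mt F (ℓ (n + 1)) ω) ∂ν := by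
      rw [← sub_eq_zero, ← integral_sub i1 i2, ← h3]
      refine integral_congr_ae (Eventually.of_forall (fun ω => ?_))
      simp only [map_sub]
    have h5 : ∫ ω, B (h n (ℓ (n + 1) ω)) (avg F (ℓ N ⁻¹' {ℓ N ω})) ∂ν =
        ∫ ω, B (h n (ℓ (n + 1) ω)) (Mt F (ℓ N) ω) ∂ν := rfl
    rw [h5, h4]
    have h6 := hh3 n
    have h7 := hbad n
    linarith
  refine simons' x δ hδpos 2 hxR ?_ 𝓑 hb1 ?_ ?_
  · intro N y hy
    obtain ⟨b, hb, hbx⟩ := hlow N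
    have h1 : convexHull ℝ (x '' Set.Iio N) ⊆ {y | δ ≤ b y} := by
      refine convexHull_min ?_ (convex_halfSpace_ge b.toLinearMap.isLinear _)
      rintro _ ⟨n, hn, rfl⟩
      exact hbx n hn
    exact (h1 hy).trans (hb1 b hb y)
  · intro y
    obtain ⟨g, hg, hgy⟩ := hNA y
    refine ⟨_, ⟨g, hg, rfl⟩, ?_⟩
    rw [ContinuousLinearMap.flip_apply, B.lpPairing_eq_integral, hgy]
  · rintro b ⟨g, hg, rfl⟩
    have hgi : Integrable g μ := (Lp.memLp g).integrable (Fact.out)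
    have h1 := weak_null B hBabs f hfm hf2 horth g hgi
    refine h1.congr (fun n => ?_)
    rw [ContinuousLinearMap.flip_apply, B.lpPairing_eq_integral]
    refine integral_congr_ae ?_
    filter_upwards [(hfL n).coeFn_toLp] with ω h2
    rw [hx]
    simp only
    rw [h2]

end Pool.Agent.Lib_helper33.RNP
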