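import Mathlib
import Pool.Agent.Lib_helper33.RNP.NoBad

set_option autoImplicit false

open Filter Topology Set MeasureTheory
open scoped ENNReal

namespace Pool.Agent.Lib_helper33.RNP

variable {Ω Ω' : Type*} [MeasurableSpace Ω] [MeasurableSpace Ω']
  {μ : Measure Ω} [IsProbabilityMeasure μ]
variable {X Y : Type*} [NormedAddCommGroup X] [NormedSpace ℝ X] [CompleteSpace X]
  [NormedAddCommGroup Y] [NormedSpace ℝ Y] [CompleteSpace Y]

/-- common refinement of two countable partitions -/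
def pr (ℓ m : Ω' → ℕ) (ω : Ω') : ℕ := Nat.pair (ℓ ω) (m ω)

theorem pr_meas {ℓ m : Ω' → ℕ} (hℓ : Measurable ℓ) (hm : Measurable m) : Measurable (pr ℓ m) :=
  (Measurable.of_discrete (f := fun p : ℕ × ℕ => Nat.pair p.1 p.2)).comp (hℓ.prodMk hm)

omit [CompleteSpace Y] in
theorem Mt_congr (F : VectorMeasure Ω' Y) {ℓ ℓ' : Ω' → ℕ}
    (h : ∀ ω ω', ℓ ω' = ℓ ω ↔ ℓ' ω' = ℓ' ω) : Mt F ℓ = Mt F ℓ' := by
  funext ω
  unfold Mt
  congr 1
  ext ω'
  simp only [mem_preimage, mem_singleton_iff]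
  exact h ω ω'

theorem exists_good (hμ : NonAtomic μ) (B : X →L[ℝ] Y →L[ℝ] ℝ) (hB1 : ∀ x y, B x y ≤ ‖x‖ * ‖y‖)
    (hB2 : ∀ y, ∃ x, ‖x‖ ≤ 1 ∧ ‖y‖ / 2 ≤ B x y)
    (p q : ℝ≥0∞) [Fact (1 ≤ p)] [Fact (1 ≤ q)] [ENNReal.HolderConjugate p q]
    (hNA : ∀ f : Lp X p μ, ∃ g : Lp Y q μ, ‖g‖ ≤ 1 ∧ ∫ ω, B (f ω) (g ω) ∂μ = ‖f‖)
    (F : VectorMeasure Ω' Y) [IsFiniteMeasure F.variation] (ε : ℝ) (hε : 0 < ε) :
    ∃ ℓ : Ω' → ℕ, Measurable ℓ ∧ ∀ m : Ω' → ℕ, Measurable m →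
      ∫ ω, ‖Mt F (pr ℓ m) ω - Mt F ℓ ω‖ ∂F.variation < ε := by
  by_contra hcon
  push Not at hcon
  choose! m hm1 hm2 using hcon
  let s : ℕ → {ℓ : Ω' → ℕ // Measurable ℓ} := fun n =>
    Nat.rec ⟨fun _ => 0, measurable_const⟩ (fun _ w => ⟨pr w.1 (m w.1), pr_meas w.2 (hm1 _ w.2)⟩) n
  have hs : ∀ n, (s (n + 1)).1 = pr (s n).1 (m (s n).1) := fun n => rfl
  refine no_bad_seq hμ B hB1 hB2 p q hNA F (fun n => (s n).1) (fun n => (s n).2)
    (fun a => (Nat.unpair a).1) ?_ ε hε ?_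
  · intro n ω
    rw [hs]
    simp [pr]
  · intro n
    rw [hs]
    exact hm2 _ (s n).2

theorem exists_density (hμ : NonAtomic μ) (B : X →L[ℝ] Y →L[ℝ] ℝ)
    (hB1 : ∀ x y, B x y ≤ ‖x‖ * ‖y‖)
    (hB2 : ∀ y, ∃ x, ‖x‖ ≤ 1 ∧ ‖y‖ / 2 ≤ B x y)
    (p q : ℝ≥0∞) [Fact (1 ≤ p)] [Fact (1 ≤ q)] [ENNReal.HolderConjugate p q]
    (hNA : ∀ f : Lp X p μ, ∃ g : Lp Y q μ, ‖g‖ ≤ 1 ∧ ∫ ω, B (f ω) (g ω) ∂μ = ‖f‖)
    (F : VectorMeasure Ω' Y) [IsFiniteMeasure F.variation] :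
    ∃ g : Ω' → Y, Integrable g F.variation ∧
      ∀ A, MeasurableSet A → F A = ∫ ω in A, g ω ∂F.variation := by
  set ν := F.variation with hν
  have hgood := fun k : ℕ => exists_good hμ B hB1 hB2 p q hNA F ((1 / 2) ^ k) (by positivity)
  choose e he1 he2 using hgood
  let s : ℕ → {ℓ : Ω' → ℕ // Measurable ℓ} := fun n =>
    Nat.rec ⟨e 0, he1 0⟩ (fun k w => ⟨pr w.1 (e (k + 1)), pr_meas w.2 (he1 _)⟩) n
  set L : ℕ → Ω' → ℕ := fun n => (s n).1 with hL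
  have hLm : ∀ n, Measurable (L n) := fun n => (s n).2
  have hL0 : L 0 = e 0 := rfl
  have hLs : ∀ n, L (n + 1) = pr (L n) (e (n + 1)) := fun n => rfl
  have hσ : ∀ n, ∃ σ : ℕ → ℕ, ∀ ω, e n ω = σ (L n ω) := by
    intro n
    cases n with
    | zero => exact ⟨id, fun ω => by rw [hL0]; rfl⟩
    | succ n =>
      refine ⟨fun a => (Nat.unpair a).2, fun ω => ?_⟩
      rw [hLs]; simp [pr]
  have hMi : ∀ ℓ : Ω' → ℕ, Measurable ℓ → Integrable (Mt F ℓ) ν := fun ℓ h => integrable_Mt F h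
  have hclose : ∀ n (m : Ω' → ℕ), Measurable m →
      ∫ ω, ‖Mt F (pr (L n) m) ω - Mt F (L n) ω‖ ∂ν ≤ 2 * (1 / 2) ^ n := by
    intro n m hm
    obtain ⟨σ, hσ⟩ := hσ n
    have h1 : Mt F (pr (L n) m) = Mt F (pr (e n) (pr (L n) m)) := by
      refine Mt_congr F (fun ω ω' => ?_)
      simp only [pr, Nat.pair_eq_pair]
      constructor
      · rintro ⟨a, b⟩
        exact ⟨by rw [hσ, hσ, a], a, b⟩
      · rintro ⟨_, a, b⟩
        exact ⟨a, b⟩
    have h2 : Mt F (L n) = Mt F (pr (e n) (L n)) := by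
      refine Mt_congr F (fun ω ω' => ?_)
      simp only [pr, Nat.pair_eq_pair]
      constructor
      · intro a
        exact ⟨by rw [hσ, hσ, a], a⟩
      · rintro ⟨_, a⟩
        exact a
    have h3 := he2 n (pr (L n) m) (pr_meas (hLm n) hm)
    have h4 := he2 n (L n) (hLm n)
    rw [← h1] at h3
    rw [← h2] at h4
    have i1 := hMi _ (pr_meas (hLm n) hm)
    have i2 := hMi _ (hLm n)
    have i3 := hMi _ (he1 n)
    calc ∫ ω, ‖Mt F (pr (L n) m) ω - Mt F (L n) ω‖ ∂ν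
        ≤ ∫ ω, (‖Mt F (pr (L n) m) ω - Mt F (e n) ω‖ + ‖Mt F (L n) ω - Mt F (e n) ω‖) ∂ν := by
          refine integral_mono (i1.sub i2).norm ((i1.sub i3).norm.add (i2.sub i3).norm) ?_
          intro ω
          have h5 : Mt F (pr (L n) m) ω - Mt F (L n) ω =
            (Mt F (pr (L n) m) ω - Mt F (e n) ω) - (Mt F (L n) ω - Mt F (e n) ω) := by abel
          simp only
          rw [h5]
          exact norm_sub_le _ _
      _ = ∫ ω, ‖Mt F (pr (L n) m) ω - Mt F (e n) ω‖ ∂ν + ∫ ω, ‖Mt F (L n) ω - Mt F (e n) ω‖ ∂ν :=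
          integral_add (i1.sub i3).norm (i2.sub i3).norm
      _ ≤ 2 * (1 / 2) ^ n := by linarith
  -- the limit
  set G : ℕ → (Ω' →₁[ν] Y) := fun n => (hMi _ (hLm n)).toL1 (Mt F (L n)) with hG
  have hdist : ∀ n, dist (G n) (G (n + 1)) ≤ 4 / 2 / 2 ^ n := by
    intro n
    rw [dist_comm, dist_eq_norm, hG]
    simp only
    rw [← Integrable.toL1_sub, L1.norm_of_fun_eq_integral_norm]
    have h1 := hclose n (e (n + 1)) (he1 _)
    rw [← hLs] at h1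
    refine le_trans (le_of_eq ?_) (h1.trans (le_of_eq ?_))
    · rfl
    · rw [div_pow, one_pow]; ring
  have hcau : CauchySeq G := cauchySeq_of_le_geometric_two hdist
  obtain ⟨g, hg⟩ := cauchySeq_tendsto_of_complete hcau
  refine ⟨g, L1.integrable_coeFn g, fun A hA => ?_⟩
  -- convergence of set integrals
  have h1 : Tendsto (fun n => ∫ ω in A, (G n) ω ∂ν) atTop (𝓝 (∫ ω in A, g ω ∂ν)) := by
    have h2 : Continuous (fun f : Ω' →₁[ν] Y => ∫ ω in A, f ω ∂ν) := continuous_setIntegral A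
    exact (h2.tendsto g).comp hg
  have h3 : ∀ n, ∫ ω in A, (G n) ω ∂ν = ∫ ω in A, Mt F (L n) ω ∂ν := by
    intro n
    refine setIntegral_congr_ae hA ?_
    filter_upwards [(hMi _ (hLm n)).coeFn_toL1] with ω hω _
    exact hω
  simp only [h3] at h1
  have h4 : ∀ n, ‖∫ ω in A, Mt F (L n) ω ∂ν - F A‖ ≤ 2 * (1 / 2) ^ n := by
    intro n
    classical
    set m : Ω' → ℕ := fun ω => if ω ∈ A then 1 else 0 with hmdef
    have hm : Measurable m := Measurable.ite hA measurable_const measurable_const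
    have h5 : A = pr (L n) m ⁻¹' {a | (Nat.unpair a).2 = 1} := by
      ext ω
      simp only [pr, mem_preimage, mem_setOf_eq, Nat.unpair_pair, hmdef]
      by_cases hω : ω ∈ A <;> simp [hω]
    have h6 : F A = ∫ ω in A, Mt F (pr (L n) m) ω ∂ν := by
      have h7 := setIntegral_Mt F (pr_meas (hLm n) hm) {a | (Nat.unpair a).2 = 1}
      rw [← h5] at h7
      exact h7.symm
    rw [h6, ← integral_sub (hMi _ (hLm n)).integrableOn
      (hMi _ (pr_meas (hLm n) hm)).integrableOn]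
    have h8 : ‖∫ ω in A, (Mt F (L n) ω - Mt F (pr (L n) m) ω) ∂ν‖ ≤
        ∫ ω in A, ‖Mt F (pr (L n) m) ω - Mt F (L n) ω‖ ∂ν := by
      refine (norm_integral_le_integral_norm _).trans (le_of_eq ?_)
      refine integral_congr_ae (Eventually.of_forall (fun ω => ?_))
      exact norm_sub_rev _ _
    refine h8.trans (le_trans ?_ (hclose n m hm))
    exact setIntegral_le_integral (((hMi _ (pr_meas (hLm n) hm)).sub (hMi _ (hLm n))).norm)
      (Eventually.of_forall (fun ω => norm_nonneg _))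
  have h9 : Tendsto (fun n => ∫ ω in A, Mt F (L n) ω ∂ν) atTop (𝓝 (F A)) := by
    rw [tendsto_iff_norm_sub_tendsto_zero]
    refine squeeze_zero (fun _ => norm_nonneg _) h4 ?_
    have := (tendsto_pow_atTop_nhds_zero_of_lt_one (r := (1 / 2 : ℝ))
      (by norm_num) (by norm_num)).const_mul 2
    simpa using this
  exact tendsto_nhds_unique h9 h1

end Pool.Agent.Lib_helper33.RNP
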