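import Mathlib
import Pool.Agent.Lib_helper33.RNP.Density

set_option autoImplicit false

open Filter Topology Set MeasureTheory
open scoped ENNReal

namespace Pool.Agent.Lib_helper33.RNP

variable {𝕜 : Type*} [RCLike 𝕜] {X : Type*} [NormedAddCommGroup X] [NormedSpace 𝕜 X]

/-- the real pairing `(x, y) ↦ Re (y x)` -/
noncomputable def rePairing (𝕜 : Type*) [RCLike 𝕜] (X : Type*) [NormedAddCommGroup X]
    [NormedSpace 𝕜 X] [NormedSpace ℝ X] [IsScalarTower ℝ 𝕜 X] :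
    X →L[ℝ] (StrongDual 𝕜 X) →L[ℝ] ℝ :=
  LinearMap.mkContinuous₂
    (LinearMap.mk₂ ℝ (fun (x : X) (y : StrongDual 𝕜 X) => RCLike.re (y x))
      (fun x x' y => by simp)
      (fun r x y => by
        have h1 : y (r • x) = (r : 𝕜) • y x := by
          rw [← map_smul]
          congr 1
          rw [← algebraMap_smul 𝕜 r x]
        rw [h1, smul_eq_mul, RCLike.re_ofReal_mul, smul_eq_mul])
      (fun x y y' => by simp)
      (fun r x y => by
        rw [ContinuousLinearMap.smul_apply, RCLike.smul_re, smul_eq_mul])) 1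
    (fun x y => by
      rw [LinearMap.mk₂_apply, one_mul, Real.norm_eq_abs]
      refine (RCLike.abs_re_le_norm _).trans ?_
      rw [mul_comm]
      exact y.le_opNorm x)

theorem rePairing_apply [NormedSpace ℝ X] [IsScalarTower ℝ 𝕜 X] (x : X) (y : StrongDual 𝕜 X) :
    rePairing 𝕜 X x y = RCLike.re (y x) := rfl

theorem rePairing_norming [NormedSpace ℝ X] [IsScalarTower ℝ 𝕜 X] (y : StrongDual 𝕜 X) :
    ∃ x : X, ‖x‖ ≤ 1 ∧ ‖y‖ / 2 ≤ rePairing 𝕜 X x y := by
  rcases (norm_nonneg y).eq_or_lt with h0 | h0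
  · exact ⟨0, by simp, by rw [← h0]; simp⟩
  · have h1 : ‖y‖ / 2 < ‖y‖ := half_lt_self h0
    obtain ⟨x, hx, hxy⟩ := y.exists_lt_apply_of_lt_opNorm h1
    -- rotate
    obtain ⟨c, hc, hcy⟩ : ∃ c : 𝕜, ‖c‖ = 1 ∧ c * y x = (‖y x‖ : 𝕜) := by
      have hne : y x ≠ 0 := by
        intro h; rw [h, norm_zero] at hxy; linarith
      refine ⟨(‖y x‖ : 𝕜) * (y x)⁻¹, ?_, ?_⟩
      · rw [norm_mul, norm_inv, RCLike.norm_ofReal, abs_norm, mul_inv_cancel₀ (norm_ne_zero_iff.2 hne)]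
      · rw [mul_assoc, inv_mul_cancel₀ hne, mul_one]
    refine ⟨c • x, ?_, ?_⟩
    · rw [norm_smul, hc, one_mul]; exact hx.le
    · rw [rePairing_apply, map_smul, smul_eq_mul, hcy, RCLike.ofReal_re]
      exact hxy.le

end Pool.Agent.Lib_helper33.RNP
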